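import Pool.Agent.Work.MP_f1a024_nt.AH.Stmts
import Pool.Agent.Work.Tools.Subspace.ItemP2
import Pool.Agent.Work.Tools.Subspace.ItemU2

/-! Bundle of small proof modules (one section per former module). -/

section

namespace Pool.Agent.Work.MP_f1a024_nt.AH

open Finset

namespace ID1

lemma pg_mul (f g : ArithmeticFunction ℚ) (hf : PG f) (hg : PG g) : PG (f * g) := by
  obtain ⟨C, A, hC⟩ := hf
  obtain ⟨C', A', hC'⟩ := hg
  refine ⟨C * C', A + A' + 1, fun n => ?_⟩
  rw [ArithmeticFunction.mul_apply]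
  push_cast
  rcases Nat.eq_zero_or_pos n with hn | hn
  · subst hn
    simp
  have h1 : ∀ x ∈ n.divisorsAntidiagonal,
      |((f x.1 : ℚ) : ℝ) * ((g x.2 : ℚ) : ℝ)| ≤ (C * C' : ℝ) * (n : ℝ) ^ (A + A') := by
    intro x hx
    rw [Nat.mem_divisorsAntidiagonal] at hx
    have hx1 : x.1 ≤ n := Nat.le_of_dvd hn ⟨x.2, hx.1.symm⟩
    have hx2 : x.2 ≤ n := Nat.le_of_dvd hn ⟨x.1, by rw [mul_comm]; exact hx.1.symm⟩
    rw [abs_mul]
    have h2 : |((f x.1 : ℚ) : ℝ)| ≤ C * (n : ℝ) ^ A := by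
      refine (hC x.1).trans ?_
      gcongr
    have h3 : |((g x.2 : ℚ) : ℝ)| ≤ C' * (n : ℝ) ^ A' := by
      refine (hC' x.2).trans ?_
      gcongr
    calc |((f x.1 : ℚ) : ℝ)| * |((g x.2 : ℚ) : ℝ)| ≤ (C * (n : ℝ) ^ A) * (C' * (n : ℝ) ^ A') := by
          gcongr
      _ = (C * C' : ℝ) * (n : ℝ) ^ (A + A') := by rw [pow_add]; ring
  have h4 : (n.divisorsAntidiagonal.card : ℝ) ≤ n := by
    have h5 : n.divisorsAntidiagonal.card = n.divisors.card := by
      rw [← Nat.map_div_right_divisors, Finset.card_map]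
    rw [h5]
    exact_mod_cast Nat.card_divisors_le_self n
  calc |∑ x ∈ n.divisorsAntidiagonal, ((f x.1 : ℚ) : ℝ) * ((g x.2 : ℚ) : ℝ)|
      ≤ ∑ x ∈ n.divisorsAntidiagonal, |((f x.1 : ℚ) : ℝ) * ((g x.2 : ℚ) : ℝ)| :=
        Finset.abs_sum_le_sum_abs _ _
    _ ≤ ∑ x ∈ n.divisorsAntidiagonal, (C * C' : ℝ) * (n : ℝ) ^ (A + A') := Finset.sum_le_sum h1
    _ = n.divisorsAntidiagonal.card * ((C * C' : ℝ) * (n : ℝ) ^ (A + A')) := by
        rw [Finset.sum_const, nsmul_eq_mul]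
    _ ≤ n * ((C * C' : ℝ) * (n : ℝ) ^ (A + A')) := by gcongr
    _ = C * C' * (n : ℝ) ^ (A + A' + 1) := by rw [pow_succ]; ring

lemma pg_sub (f g : ArithmeticFunction ℚ) (hf : PG f) (hg : PG g) : PG (f - g) := by
  obtain ⟨C, A, hC⟩ := hf
  obtain ⟨C', A', hC'⟩ := hg
  refine ⟨C + C', A + A', fun n => ?_⟩
  have h0 : (f - g) n = f n - g n := by
    first
      | rfl
      | simp
      | (rw [sub_eq_add_neg, ArithmeticFunction.add_apply, ArithmeticFunction.neg_apply, ← sub_eq_add_neg])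
  rw [h0]
  push_cast
  rcases Nat.eq_zero_or_pos n with hn | hn
  · subst hn
    simp
    positivity
  have hn1 : (1 : ℝ) ≤ n := by exact_mod_cast hn
  have h1 : (n : ℝ) ^ A ≤ (n : ℝ) ^ (A + A') := pow_le_pow_right₀ hn1 (by omega)
  have h2 : (n : ℝ) ^ A' ≤ (n : ℝ) ^ (A + A') := pow_le_pow_right₀ hn1 (by omega)
  calc |((f n : ℚ) : ℝ) - ((g n : ℚ) : ℝ)| ≤ |((f n : ℚ) : ℝ)| + |((g n : ℚ) : ℝ)| := abs_sub _ _
    _ ≤ C * (n : ℝ) ^ A + C' * (n : ℝ) ^ A' := add_le_add (hC n) (hC' n)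
    _ ≤ C * (n : ℝ) ^ (A + A') + C' * (n : ℝ) ^ (A + A') := by gcongr
    _ = (C + C') * (n : ℝ) ^ (A + A') := by ring

lemma isP_pg (f : ArithmeticFunction ℚ) (hf : IsP f) : PG f := by
  obtain ⟨C, hC⟩ := exists_nat_ge (∑ n ∈ hf.toFinset, |((f n : ℚ) : ℝ)|)
  refine ⟨C, 0, fun n => ?_⟩
  rw [pow_zero, mul_one]
  by_cases hn : f n = 0
  · rw [hn]
    simp
  · refine le_trans ?_ hC
    exact Finset.single_le_sum (f := fun n => |((f n : ℚ) : ℝ)|) (fun i _ => abs_nonneg _)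
      (hf.mem_toFinset.2 hn)

lemma isP_mul (f g : ArithmeticFunction ℚ) (hf : IsP f) (hg : IsP g) : IsP (f * g) := by
  refine ((hf.prod hg).image (fun p => p.1 * p.2)).subset ?_
  intro n hn
  have hn' : (f * g) n ≠ 0 := hn
  rw [ArithmeticFunction.mul_apply] at hn'
  obtain ⟨x, hx, hx0⟩ := Finset.exists_ne_zero_of_sum_ne_zero hn'
  rw [Nat.mem_divisorsAntidiagonal] at hx
  exact ⟨x, ⟨left_ne_zero_of_mul hx0, right_ne_zero_of_mul hx0⟩, hx.1⟩

lemma isP_sub (f g : ArithmeticFunction ℚ) (hf : IsP f) (hg : IsP g) : IsP (f - g) := by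
  refine (hf.union hg).subset ?_
  intro n hn
  by_contra hcon
  have h1 : f n = 0 := by
    by_contra h
    exact hcon (Or.inl h)
  have h2 : g n = 0 := by
    by_contra h
    exact hcon (Or.inr h)
  apply hn
  have h0 : (f - g) n = f n - g n := by
    first
      | rfl
      | simp
      | (rw [sub_eq_add_neg, ArithmeticFunction.add_apply, ArithmeticFunction.neg_apply, ← sub_eq_add_neg])
  rw [h0, h1, h2, sub_zero]

lemma isP_one : IsP 1 := by
  refine (Set.finite_singleton 1).subset ?_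
  intro n hn
  by_contra h
  exact hn (ArithmeticFunction.one_apply_ne h)

end ID1

theorem prfD1 : D1 :=
  ⟨ID1.pg_mul, ID1.pg_sub, ID1.isP_pg, ID1.isP_mul, ID1.isP_sub, ID1.isP_one⟩

end Pool.Agent.Work.MP_f1a024_nt.AH

end

section

set_option autoImplicit false

namespace Pool.Agent.Work.MP_f1a024_nt.AH

open Finset Filter

namespace ID10a

theorem pg_of_le_one (f : ArithmeticFunction ℚ) (h : ∀ n, |f n| ≤ 1) : PG f := by
  refine ⟨1, 0, fun n => ?_⟩
  have h1 : ((|f n| : ℚ) : ℝ) ≤ ((1 : ℚ) : ℝ) := Rat.cast_le.2 (h n)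
  rw [Rat.cast_abs, Rat.cast_one] at h1
  simpa using h1

theorem pg_sq : PG sq := by
  refine pg_of_le_one _ fun n => ?_
  have e : sq n = if n = 0 then 0 else if IsSquare n then 1 else 0 := rfl
  rw [e]
  split_ifs <;> simp

theorem pg_moebius : PG (ArithmeticFunction.moebius : ArithmeticFunction ℚ) := by
  refine pg_of_le_one _ fun n => ?_
  rw [ArithmeticFunction.intCoe_apply]
  have h := ArithmeticFunction.abs_moebius_le_one (n := n)
  exact_mod_cast h

theorem pg_zeta : PG (ArithmeticFunction.zeta : ArithmeticFunction ℚ) := by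
  refine pg_of_le_one _ fun n => ?_
  rw [ArithmeticFunction.natCoe_apply, ArithmeticFunction.zeta_apply]
  split_ifs <;> simp

theorem val_one (m : ℕ) : val 1 m = 1 := by
  unfold val
  rw [tsum_eq_single 1]
  · simp
  · intro n hn
    rw [ArithmeticFunction.one_apply_ne hn]
    simp

theorem val_zeta (m : ℕ) (hm : 2 ≤ m) :
    (val (ArithmeticFunction.zeta : ArithmeticFunction ℚ) m : ℂ) = riemannZeta m := by
  unfold val
  rw [zeta_nat_eq_tsum_of_gt_one (by omega), Complex.ofReal_tsum]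
  refine tsum_congr fun n => ?_
  rw [ArithmeticFunction.natCoe_apply, ArithmeticFunction.zeta_apply]
  by_cases hn : n = 0
  · subst hn
    have hm0 : m ≠ 0 := by omega
    simp [hm0]
  · rw [if_neg hn]
    push_cast
    rfl

theorem val_sq (m : ℕ) (hm : 2 ≤ m) : (val sq m : ℂ) = riemannZeta (2 * m) := by
  unfold val
  have e : (2 * (m : ℂ)) = ((2 * m : ℕ) : ℂ) := by push_cast; ring
  rw [e, zeta_nat_eq_tsum_of_gt_one (by omega), Complex.ofReal_tsum]
  have hinj : Function.Injective fun k : ℕ => k ^ 2 := fun a b h => by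
    exact (Nat.pow_left_injective (by norm_num : (2 : ℕ) ≠ 0)) h
  have hs : ∀ n, sq n = if n = 0 then 0 else if IsSquare n then 1 else 0 := fun n => rfl
  rw [← hinj.tsum_eq]
  · refine tsum_congr fun k => ?_
    rw [hs]
    by_cases hk : k = 0
    · subst hk
      have hm0 : m ≠ 0 := by omega
      simp [hm0]
    · rw [if_neg (pow_ne_zero 2 hk), if_pos ⟨k, by ring⟩]
      push_cast
      rw [← pow_mul]
  · intro n hn
    rw [Function.mem_support] at hn
    by_contra h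
    apply hn
    rw [hs]
    by_cases h0 : n = 0
    · rw [if_pos h0]
      simp
    · rw [if_neg h0, if_neg]
      · simp
      · rintro ⟨k, hk⟩
        exact h ⟨k, by simp only; rw [hk]; ring⟩

end ID10a

open ID10a in
theorem prfD10a (h1 : D1) (h2 : D2) : D10a := by
  refine ⟨h1.1 _ _ (h1.1 _ _ pg_sq pg_moebius) pg_moebius, ?_⟩
  obtain ⟨M1, q1⟩ := h2.2.2 _ _ (h1.1 _ _ pg_sq pg_moebius) pg_moebius
  obtain ⟨M2, q2⟩ := h2.2.2 _ _ pg_sq pg_moebius
  obtain ⟨M3, q3⟩ := h2.2.2 _ _ pg_moebius pg_zeta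
  refine ⟨max (max M1 M2) (max M3 2), fun m hm => ?_⟩
  have m1 : M1 ≤ m := (le_max_left _ _).trans ((le_max_left _ _).trans hm)
  have m2 : M2 ≤ m := (le_max_right _ _).trans ((le_max_left _ _).trans hm)
  have m3 : M3 ≤ m := (le_max_left _ _).trans ((le_max_right _ _).trans hm)
  have m4 : 2 ≤ m := (le_max_right _ _).trans ((le_max_right _ _).trans hm)
  have e1 := q1 m m1
  have e2 := q2 m m2
  have e3 := q3 m m3
  rw [ArithmeticFunction.coe_moebius_mul_coe_zeta, val_one] at e3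
  have e4 : val tau m = val sq m * val (ArithmeticFunction.moebius : ArithmeticFunction ℚ) m *
      val (ArithmeticFunction.moebius : ArithmeticFunction ℚ) m := by
    rw [← e2, ← e1]
    rfl
  rw [e4, ← val_sq m m4, ← val_zeta m m4]
  have hz : (val (ArithmeticFunction.zeta : ArithmeticFunction ℚ) m : ℂ) ≠ 0 := by
    intro h
    rw [Complex.ofReal_eq_zero] at h
    rw [h, mul_zero] at e3
    exact one_ne_zero e3
  have e5 : (val (ArithmeticFunction.moebius : ArithmeticFunction ℚ) m : ℂ) *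
      (val (ArithmeticFunction.zeta : ArithmeticFunction ℚ) m : ℂ) = 1 := by
    rw [← Complex.ofReal_mul, ← e3, Complex.ofReal_one]
  rw [eq_div_iff (pow_ne_zero 2 hz)]
  push_cast
  calc _ = (val sq m : ℂ) * ((val (ArithmeticFunction.moebius : ArithmeticFunction ℚ) m : ℂ) *
      (val (ArithmeticFunction.zeta : ArithmeticFunction ℚ) m : ℂ)) ^ 2 := by ring
    _ = _ := by rw [e5]; ring

end Pool.Agent.Work.MP_f1a024_nt.AH

end

section

namespace Pool.Agent.Work.MP_f1a024_nt.AH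

open Finset

namespace ID10b

lemma sq_apply {n : ℕ} (hn : n ≠ 0) : sq n = if IsSquare n then 1 else 0 := by
  have : sq n = if n = 0 then 0 else if IsSquare n then 1 else 0 := rfl
  rw [this, if_neg hn]

lemma isSquare_left {m n : ℕ} (h : m.Coprime n) (hs : IsSquare (m * n)) : IsSquare m := by
  obtain ⟨r, hr⟩ := hs
  have h1 : m * n = r ^ 2 := by rw [hr]; ring
  obtain ⟨d, hd⟩ := exists_eq_pow_of_mul_eq_pow (isUnit_of_gcd h) h1
  exact ⟨d, by rw [hd]; ring⟩
where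
  isUnit_of_gcd {m n : ℕ} (h : m.Coprime n) : IsUnit (gcd m n) := by
    rw [Nat.isUnit_iff]
    exact h

lemma isSquare_mul_iff {m n : ℕ} (h : m.Coprime n) :
    IsSquare (m * n) ↔ IsSquare m ∧ IsSquare n := by
  constructor
  · intro hs
    exact ⟨isSquare_left h hs, isSquare_left h.symm (by rwa [mul_comm] at hs)⟩
  · rintro ⟨h1, h2⟩
    exact h1.mul h2

lemma sq_mult : sq.IsMultiplicative := by
  rw [ArithmeticFunction.IsMultiplicative.iff_ne_zero]
  refine ⟨?_, ?_⟩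
  · rw [sq_apply one_ne_zero, if_pos ⟨1, by norm_num⟩]
  · intro m n hm hn hmn
    rw [sq_apply hm, sq_apply hn, sq_apply (mul_ne_zero hm hn)]
    by_cases h1 : IsSquare m <;> by_cases h2 : IsSquare n <;>
      simp [isSquare_mul_iff hmn, h1, h2]

lemma moebius_mult :
    ((ArithmeticFunction.moebius : ArithmeticFunction ℤ) : ArithmeticFunction ℚ).IsMultiplicative :=
  ArithmeticFunction.isMultiplicative_moebius.intCast

lemma mul_prime (f g : ArithmeticFunction ℚ) (hf : f 1 = 1) (hg : g 1 = 1) {p : ℕ}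
    (hp : p.Prime) : (f * g) p = f p + g p := by
  rw [ArithmeticFunction.mul_apply,
    Nat.sum_divisorsAntidiagonal (n := p) (fun x y => f x * g y), hp.sum_divisors,
    Nat.div_self hp.pos, Nat.div_one, hf, hg, one_mul, mul_one, add_comm, add_comm]

end ID10b

theorem prfD10b : D10b := by
  have hm := ID10b.moebius_mult
  have hs := ID10b.sq_mult
  have hsm := hs.mul hm
  refine ⟨hsm.mul hm, fun p hp => ?_⟩
  unfold tau
  rw [ID10b.mul_prime _ _ hsm.map_one hm.map_one hp, ID10b.mul_prime _ _ hs.map_one hm.map_one hp]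
  rw [ID10b.sq_apply hp.ne_zero, if_neg hp.prime.not_isSquare]
  rw [ArithmeticFunction.intCoe_apply, ArithmeticFunction.moebius_apply_prime hp]
  norm_num

end Pool.Agent.Work.MP_f1a024_nt.AH

end

section

set_option autoImplicit false

namespace Pool.Agent.Work.MP_f1a024_nt.AH

open Finset

namespace ID11

theorem key (g h : ArithmeticFunction ℚ) (hh : h.IsMultiplicative) (q n : ℕ) (hq : q.Prime)
    (hn : 0 < n) (hqn : ¬ q ∣ n) (hg : ∀ a, g a ≠ 0 → ¬ q ∣ a) :
    (g * h) (n * q) = h q * (g * h) n := by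
  classical
  rw [ArithmeticFunction.mul_apply, ArithmeticFunction.mul_apply, Finset.mul_sum]
  have hinj : Set.InjOn (fun x : ℕ × ℕ => (x.1, x.2 * q)) (n.divisorsAntidiagonal : Set (ℕ × ℕ)) := by
    rintro ⟨a, b⟩ _ ⟨c, d⟩ _ hxy
    simp only [Prod.mk.injEq] at hxy
    rw [Prod.mk.injEq]
    exact ⟨hxy.1, Nat.eq_of_mul_eq_mul_right hq.pos hxy.2⟩
  have hsub : n.divisorsAntidiagonal.image (fun x : ℕ × ℕ => (x.1, x.2 * q)) ⊆
      (n * q).divisorsAntidiagonal := by
    intro x hx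
    obtain ⟨y, hy, rfl⟩ := Finset.mem_image.1 hx
    rw [Nat.mem_divisorsAntidiagonal] at hy ⊢
    refine ⟨?_, Nat.mul_ne_zero hn.ne' hq.ne_zero⟩
    simp only
    rw [← mul_assoc, hy.1]
  rw [← Finset.sum_subset hsub, Finset.sum_image hinj]
  · refine Finset.sum_congr rfl fun x hx => ?_
    have hx' := Nat.mem_divisorsAntidiagonal.1 hx
    have hc : Nat.Coprime x.2 q := by
      refine ((Nat.Prime.coprime_iff_not_dvd hq).2 fun h => hqn ?_).symm
      exact h.trans ⟨x.1, by rw [mul_comm]; exact hx'.1.symm⟩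
    simp only
    rw [hh.2 hc]
    ring
  · intro x hx hx2
    by_cases hgx : g x.1 = 0
    · rw [hgx, zero_mul]
    · exfalso
      apply hx2
      have hx' := Nat.mem_divisorsAntidiagonal.1 hx
      have h1 : q ∣ x.1 * x.2 := by
        rw [hx'.1]
        exact Dvd.intro_left n rfl
      rcases (Nat.Prime.dvd_mul hq).1 h1 with h2 | h2
      · exact absurd h2 (hg _ hgx)
      · obtain ⟨b, hb⟩ := h2
        refine Finset.mem_image.2 ⟨(x.1, b), ?_, ?_⟩
        · rw [Nat.mem_divisorsAntidiagonal]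
          refine ⟨?_, hn.ne'⟩
          simp only
          have h3 := hx'.1
          rw [hb] at h3
          refine Nat.eq_of_mul_eq_mul_right hq.pos ?_
          rw [← h3]
          ring
        · exact Prod.ext rfl (by simp only; rw [hb, mul_comm])

theorem mul_prime (f g : ArithmeticFunction ℚ) (hf : f 1 = 1) (hg : g 1 = 1) (p : ℕ)
    (hp : p.Prime) : (f * g) p = f p + g p := by
  rw [ArithmeticFunction.mul_apply, Nat.sum_divisorsAntidiagonal fun a b => f a * g b,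
    Nat.Prime.sum_divisors hp, Nat.div_self hp.pos, Nat.div_one, hf, hg]
  ring

theorem pow_prime (f : ArithmeticFunction ℚ) (hf : f.IsMultiplicative) (c : ℚ) (p : ℕ)
    (hp : p.Prime) (hc : f p = c) (k : ℕ) : (f ^ k) p = k * c := by
  induction k with
  | zero =>
    rw [pow_zero, ArithmeticFunction.one_apply_ne hp.ne_one]
    simp
  | succ k ih =>
    rw [pow_succ, mul_prime _ _ (ArithmeticFunction.IsMultiplicative.map_one hf.pow)
      (ArithmeticFunction.IsMultiplicative.map_one hf) p hp, ih, hc]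
    push_cast
    ring

theorem sum_apply {ι : Type} (s : Finset ι) (F : ι → ArithmeticFunction ℚ) (n : ℕ) :
    (∑ i ∈ s, F i) n = ∑ i ∈ s, F i n := by
  classical
  induction s using Finset.induction_on with
  | empty => simp
  | insert a s ha ih => rw [Finset.sum_insert ha, Finset.sum_insert ha,
      ArithmeticFunction.add_apply, ih]

end ID11

open ID11 in
theorem prfD11 (h5 : D5) : D11 := by
  intro f c hf hc hp d g hg hsum
  have claim : ∀ k n : ℕ, 0 < n →
      ∑ i : Fin (d + 1), (g i * f ^ (i : ℕ)) n * (((i : ℕ) : ℚ) * c) ^ k = 0 := by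
    intro k
    induction k with
    | zero =>
      intro n _
      have h1 := congrArg (fun F : ArithmeticFunction ℚ => F n) hsum
      simp only [sum_apply, ArithmeticFunction.zero_apply] at h1
      simp only [pow_zero, mul_one]
      exact h1
    | succ k ih =>
      intro n hn
      -- a large prime
      have hfin : (⋃ i : Fin (d + 1), {n | g i n ≠ 0}).Finite := Set.finite_iUnion fun i => hg i
      obtain ⟨N, hN⟩ := hfin.bddAbove
      obtain ⟨q, hq1, hq2⟩ := Nat.exists_infinite_primes (max N n + 1)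
      have h1 := ih (n * q) (Nat.mul_pos hn hq2.pos)
      rw [← h1]
      refine Finset.sum_congr rfl fun i _ => ?_
      rw [key (g i) (f ^ (i : ℕ)) hf.pow q n hq2 hn (Nat.not_dvd_of_pos_of_lt hn (by omega)) ?_,
        pow_prime f hf c q hq2 (hp q hq2)]
      · ring
      · intro a ha
        have h2 : a ≤ N := hN (Set.mem_iUnion.2 ⟨i, ha⟩)
        have h3 : a ≠ 0 := by
          rintro rfl
          exact ha ArithmeticFunction.map_zero
        exact Nat.not_dvd_of_pos_of_lt (Nat.pos_of_ne_zero h3) (by omega)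
  have hzero : ∀ i : Fin (d + 1), g i * f ^ (i : ℕ) = 0 := by
    intro i
    ext n
    rcases Nat.eq_zero_or_pos n with rfl | hn
    · simp
    · have h1 := Matrix.eq_zero_of_forall_pow_sum_mul_pow_eq_zero
        (f := fun i : Fin (d + 1) => ((i : ℕ) : ℚ) * c)
        (v := fun i : Fin (d + 1) => (g i * f ^ (i : ℕ)) n) (by
          intro x y hxy
          have h2 := mul_right_cancel₀ hc hxy
          exact Fin.ext (by exact_mod_cast h2)) fun k => claim k n hn
      exact congrFun h1 i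
  intro i
  rcases h5 _ _ (hzero i) with h | h
  · exact h
  · exfalso
    have h1 : (f ^ (i : ℕ)) 1 = 1 := ArithmeticFunction.IsMultiplicative.map_one hf.pow
    rw [h, ArithmeticFunction.zero_apply] at h1
    exact zero_ne_one h1

end Pool.Agent.Work.MP_f1a024_nt.AH

end

section

/-!
# D12: the final result
-/

namespace Pool.Agent.Work.MP_f1a024_nt.AH

namespace ID12

theorem PG_one (h1 : D1) : PG 1 := h1.2.2.1 1 h1.2.2.2.2.2

theorem PG_pow (h1 : D1) (f : ArithmeticFunction ℚ) (hf : PG f) (n : ℕ) : PG (f ^ n) := by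
  induction n with
  | zero => rw [pow_zero]; exact PG_one h1
  | succ n ih => rw [pow_succ]; exact h1.1 _ _ ih hf

theorem val_one (m : ℕ) : val 1 m = 1 := by
  unfold val
  rw [tsum_eq_single 1]
  · simp
  · intro n hn
    simp [ArithmeticFunction.one_apply_ne hn]

theorem val_pow (h1 : D1) (h2 : D2) (f : ArithmeticFunction ℚ) (hf : PG f) (n : ℕ) :
    ∃ M : ℕ, ∀ m ≥ M, val (f ^ n) m = val f m ^ n := by
  induction n with
  | zero => exact ⟨0, fun m _ => by rw [pow_zero, pow_zero, val_one]⟩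
  | succ n ih =>
    obtain ⟨M, hM⟩ := ih
    obtain ⟨M', hM'⟩ := h2.2.2 (f ^ n) f (PG_pow h1 f hf n) hf
    refine ⟨max M M', fun m hm => ?_⟩
    rw [pow_succ, hM' m (le_trans (le_max_right _ _) hm), hM m (le_trans (le_max_left _ _) hm),
      pow_succ]

theorem val_pow_unif (h1 : D1) (h2 : D2) (f : ArithmeticFunction ℚ) (hf : PG f) (d : ℕ) :
    ∃ M : ℕ, ∀ m ≥ M, ∀ n ≤ d, val (f ^ n) m = val f m ^ n := by
  choose M hM using val_pow h1 h2 f hf
  refine ⟨(Finset.range (d + 1)).sup M, fun m hm n hn => hM n m ?_⟩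
  exact le_trans (Finset.le_sup (f := M) (Finset.mem_range.2 (Nat.lt_succ_of_le hn))) hm

end ID12

open ID12 in
theorem prfD12 (h1 : D1) (h2 : D2) (h9 : D9) (h10 : D10a) (h10b : D10b) (h11 : D11) : D12 := by
  intro d B
  have hB : (1 : ℝ) ≤ max |B| 1 := le_max_right _ _
  obtain ⟨θ₀, M₀, hθ₀, H⟩ := h9 (Fin (d + 1)) (fun i => tau ^ (i : ℕ))
    (fun i => PG_pow h1 tau h10.1 i)
    (h11 tau (-2) h10b.1 (by norm_num) h10b.2 d) (max |B| 1) hB
  obtain ⟨M₁, hM₁⟩ := val_pow_unif h1 h2 tau h10.1 d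
  obtain ⟨M₂, hM₂⟩ := h10.2
  refine ⟨min θ₀ (1 / 2), lt_min hθ₀ (by norm_num), lt_of_le_of_lt (min_le_right _ _) (by norm_num),
    max M₀ (max M₁ M₂), fun m hm P hP hd hc => ?_⟩
  have hm0 : M₀ ≤ m := le_trans (le_max_left _ _) hm
  have hm1 : M₁ ≤ m := le_trans (le_trans (le_max_left _ _) (le_max_right _ _)) hm
  have hm2 : M₂ ≤ m := le_trans (le_trans (le_max_right _ _) (le_max_right _ _)) hm
  have ha : (fun i : Fin (d + 1) => P.coeff (i : ℕ)) ≠ 0 := by
    intro h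
    have := congrFun h ⟨P.natDegree, Nat.lt_succ_of_le hd⟩
    simp only [Pi.zero_apply] at this
    exact hP (Polynomial.leadingCoeff_eq_zero.1 this)
  have hb : ∀ i : Fin (d + 1), |((P.coeff (i : ℕ) : ℤ) : ℝ)| ≤ (max |B| 1) ^ m := by
    intro i
    refine le_trans (hc i) (le_trans (le_abs_self _) ?_)
    rw [abs_pow]
    exact pow_le_pow_left₀ (abs_nonneg _) (le_max_left _ _) m
  have key := H m hm0 _ ha hb
  have hle : (min θ₀ (1 / 2)) ^ m ≤ θ₀ ^ m :=
    pow_le_pow_left₀ (le_of_lt (lt_min hθ₀ (by norm_num))) (min_le_left _ _) m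
  refine le_trans hle (le_trans key (le_of_eq ?_))
  rw [← hM₂ m hm2]
  have hs : (P.map (Int.castRingHom ℂ)).eval ((val tau m : ℝ) : ℂ) =
      ((∑ i : Fin (d + 1), ((P.coeff (i : ℕ) : ℤ) : ℝ) * val (tau ^ (i : ℕ)) m : ℝ) : ℂ) := by
    rw [Polynomial.eval_map, Polynomial.eval₂_eq_sum_range' (Int.castRingHom ℂ)
      (n := d + 1) (Nat.lt_succ_of_le hd), Finset.sum_range]
    push_cast
    refine Finset.sum_congr rfl fun i _ => ?_
    rw [hM₁ m hm1 i (Nat.lt_succ_iff.1 i.2)]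
    push_cast
    simp
  rw [hs, Complex.norm_real, Real.norm_eq_abs]

end Pool.Agent.Work.MP_f1a024_nt.AH

end

section

set_option autoImplicit false

/-!
# Item D2: convergence and products of Dirichlet series at integers
-/

namespace Pool.Agent.Work.MP_f1a024_nt.AH

open Finset

namespace ID2

theorem summ (f : ArithmeticFunction ℚ) (C A : ℕ)
    (hf : ∀ n, |((f n : ℚ) : ℝ)| ≤ C * (n : ℝ) ^ A) (m : ℕ) (hm : A + 2 ≤ m) :
    Summable fun n : ℕ => ((f n : ℚ) : ℝ) / (n : ℝ) ^ m := by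
  have hs : Summable fun n : ℕ => (C : ℝ) * (1 / (n : ℝ) ^ 2) :=
    (Real.summable_one_div_nat_pow.2 one_lt_two).mul_left _
  refine Summable.of_norm_bounded hs fun n => ?_
  rcases Nat.eq_zero_or_pos n with rfl | hn
  · simp
  have hn' : (1 : ℝ) ≤ n := by exact_mod_cast hn
  have hn0 : (0 : ℝ) < n := by linarith
  rw [norm_div, norm_pow, Real.norm_eq_abs, Real.norm_eq_abs, abs_of_pos hn0, mul_one_div,
    div_le_div_iff₀ (by positivity) (by positivity)]
  calc |((f n : ℚ) : ℝ)| * (n : ℝ) ^ 2 ≤ C * (n : ℝ) ^ A * (n : ℝ) ^ 2 :=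
        mul_le_mul_of_nonneg_right (hf n) (by positivity)
    _ = C * (n : ℝ) ^ (A + 2) := by ring
    _ ≤ C * (n : ℝ) ^ m :=
        mul_le_mul_of_nonneg_left (pow_le_pow_right₀ hn' hm) (Nat.cast_nonneg _)

/-- the function with complex values -/
noncomputable def cx (f : ArithmeticFunction ℚ) : ArithmeticFunction ℂ :=
  ⟨fun n => ((f n : ℚ) : ℂ), by simp⟩

theorem cx_apply (f : ArithmeticFunction ℚ) (n : ℕ) : cx f n = ((f n : ℚ) : ℂ) := rfl

theorem cx_mul (f g : ArithmeticFunction ℚ) : cx (f * g) = cx f * cx g := by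
  ext n
  rw [cx_apply, ArithmeticFunction.mul_apply, ArithmeticFunction.mul_apply]
  push_cast
  exact Finset.sum_congr rfl fun x _ => rfl

theorem term_eq (f : ArithmeticFunction ℚ) (m : ℕ) (n : ℕ) :
    LSeries.term (fun n => cx f n) (m : ℂ) n =
      ((((f n : ℚ) : ℝ) / (n : ℝ) ^ m : ℝ) : ℂ) := by
  rcases Nat.eq_zero_or_pos n with rfl | hn
  · simp
  · rw [LSeries.term_of_ne_zero hn.ne', Complex.cpow_natCast, cx_apply]
    push_cast
    rfl

theorem val_eq (f : ArithmeticFunction ℚ) (m : ℕ) :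
    (val f m : ℂ) = LSeries (fun n => cx f n) (m : ℂ) := by
  unfold val LSeries
  rw [Complex.ofReal_tsum]
  exact tsum_congr fun n => (term_eq f m n).symm

theorem lsum (f : ArithmeticFunction ℚ) (m : ℕ)
    (hs : Summable fun n : ℕ => ((f n : ℚ) : ℝ) / (n : ℝ) ^ m) :
    LSeriesSummable (fun n => cx f n) (m : ℂ) := by
  unfold LSeriesSummable
  have h : LSeries.term (fun n => cx f n) (m : ℂ) =
      fun n => ((((f n : ℚ) : ℝ) / (n : ℝ) ^ m : ℝ) : ℂ) := funext fun n => term_eq f m n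
  rw [h]
  exact Complex.summable_ofReal.2 hs

end ID2

theorem prfD2 : D2 := by
  refine ⟨?_, ?_, ?_⟩
  · rintro f ⟨C, A, hf⟩
    exact ⟨A + 2, fun m hm => ID2.summ f C A hf m hm⟩
  · rintro f g ⟨C, A, hf⟩ ⟨C', A', hg⟩
    refine ⟨A + A' + 2, fun m hm => ?_⟩
    have h1 := ID2.summ f C A hf m (by omega)
    have h2 := ID2.summ g C' A' hg m (by omega)
    unfold val
    rw [← h1.tsum_sub h2]
    refine tsum_congr fun n => ?_
    have : (f - g) n = f n - g n := by
      rw [sub_eq_add_neg, ArithmeticFunction.add_apply, ArithmeticFunction.neg_apply]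
      ring
    rw [this]
    push_cast
    ring
  · rintro f g ⟨C, A, hf⟩ ⟨C', A', hg⟩
    refine ⟨A + A' + 2, fun m hm => ?_⟩
    have h1 := ID2.lsum f m (ID2.summ f C A hf m (by omega))
    have h2 := ID2.lsum g m (ID2.summ g C' A' hg m (by omega))
    have h3 := ArithmeticFunction.LSeries_mul' h1 h2
    have h4 : (val (f * g) m : ℂ) = (val f m : ℂ) * (val g m : ℂ) := by
      rw [ID2.val_eq, ID2.val_eq, ID2.val_eq, ID2.cx_mul]
      exact h3
    exact_mod_cast h4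

end Pool.Agent.Work.MP_f1a024_nt.AH

end

section

/-!
# D3: a nonzero Dirichlet series does not vanish at large integers
-/

namespace Pool.Agent.Work.MP_f1a024_nt.AH

theorem prfD3 (h4 : D4) : D3 := by
  classical
  intro f hf hf0
  have hex : ∃ n, f n ≠ 0 := by
    by_contra h
    push Not at h
    exact hf0 (ArithmeticFunction.ext fun n => by simp [h n])
  obtain ⟨n₀, hn₀, hmin⟩ : ∃ n₀, f n₀ ≠ 0 ∧ ∀ k < n₀, f k = 0 :=
    ⟨Nat.find hex, Nat.find_spec hex, fun k hk => by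
      by_contra h
      exact Nat.find_min hex hk h⟩
  have hpos : 0 < n₀ := by
    rcases Nat.eq_zero_or_pos n₀ with h | h
    · exact absurd (by rw [h]; exact f.map_zero) hn₀
    · exact h
  obtain ⟨C, M₀, hC, hM₀⟩ := h4 f hf (n₀ + 1) (Nat.succ_pos _)
  have hnR : (0 : ℝ) < n₀ := by exact_mod_cast hpos
  set a : ℝ := |((f n₀ : ℚ) : ℝ)| with ha
  have hapos : 0 < a := abs_pos.2 (by exact_mod_cast hn₀)
  have ht1 : Filter.Tendsto (fun m : ℕ => C * ((n₀ : ℝ) / ((n₀ : ℝ) + 1)) ^ m) Filter.atTop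
      (nhds 0) := by
    have := tendsto_pow_atTop_nhds_zero_of_lt_one (r := (n₀ : ℝ) / ((n₀ : ℝ) + 1)) (by positivity)
      (by rw [div_lt_one (by positivity)]; linarith)
    simpa using this.const_mul C
  have ht2 : Filter.Tendsto (fun m : ℕ => ((1 : ℝ) / 2) ^ m) Filter.atTop (nhds 0) :=
    tendsto_pow_atTop_nhds_zero_of_lt_one (by norm_num) (by norm_num)
  have he := (ht1.eventually (ge_mem_nhds (half_pos hapos))).and
    (ht2.eventually (ge_mem_nhds (half_pos hapos)))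
  obtain ⟨M₁, hM₁⟩ := Filter.eventually_atTop.1 he
  refine ⟨1 / (2 * n₀), max M₀ M₁, by positivity, fun m hm => ?_⟩
  have h0 := hM₀ m (le_trans (le_max_left _ _) hm)
  obtain ⟨h1, h2⟩ := hM₁ m (le_trans (le_max_right _ _) hm)
  have hsum : ∑ k ∈ Finset.range (n₀ + 1), ((f k : ℚ) : ℝ) / (k : ℝ) ^ m =
      ((f n₀ : ℚ) : ℝ) / (n₀ : ℝ) ^ m := by
    rw [Finset.sum_range_succ, Finset.sum_eq_zero, zero_add]
    intro k hk
    rw [hmin k (Finset.mem_range.1 hk)]
    simp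
  rw [hsum] at h0
  have hpm : (0 : ℝ) < (n₀ : ℝ) ^ m := by positivity
  have h3 : C * (1 / ((n₀ + 1 : ℕ) : ℝ)) ^ m ≤ a / 2 / (n₀ : ℝ) ^ m := by
    rw [le_div_iff₀ hpm]
    refine le_trans (le_of_eq ?_) h1
    push_cast
    rw [div_pow, div_pow, one_pow]
    field_simp
  have h4' : a / (n₀ : ℝ) ^ m - a / 2 / (n₀ : ℝ) ^ m ≤ |val f m| := by
    have h5 : |((f n₀ : ℚ) : ℝ) / (n₀ : ℝ) ^ m| = a / (n₀ : ℝ) ^ m := by
      rw [abs_div, abs_of_pos hpm]
    have h6 := abs_sub_abs_le_abs_sub (((f n₀ : ℚ) : ℝ) / (n₀ : ℝ) ^ m) (val f m)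
    rw [abs_sub_comm] at h6
    rw [h5] at h6
    linarith
  have h7 : a / (n₀ : ℝ) ^ m - a / 2 / (n₀ : ℝ) ^ m = (a / 2) / (n₀ : ℝ) ^ m := by ring
  rw [h7] at h4'
  refine le_trans ?_ h4'
  rw [one_div_pow, mul_pow, le_div_iff₀ hpm]
  refine le_trans (le_of_eq ?_) h2
  rw [one_div_pow]
  field_simp

end Pool.Agent.Work.MP_f1a024_nt.AH

end

section

set_option autoImplicit false

/-!
# Item D4: tails of Dirichlet series
-/

namespace Pool.Agent.Work.MP_f1a024_nt.AH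

open Finset

theorem prfD4 (h2 : D2) : D4 := by
  intro f hf N hN
  obtain ⟨M, hM⟩ := h2.1 f hf
  obtain ⟨C, A, hC⟩ := hf
  have hN' : (0 : ℝ) < N := by exact_mod_cast hN
  have hs0 : Summable fun n : ℕ => 1 / ((n + N : ℕ) : ℝ) ^ 2 :=
    (summable_nat_add_iff N).2 (Real.summable_one_div_nat_pow.2 one_lt_two)
  refine ⟨C * (N : ℝ) ^ (A + 2) * ∑' n : ℕ, 1 / ((n + N : ℕ) : ℝ) ^ 2, M + A + 3,
    mul_nonneg (by positivity) (tsum_nonneg fun n => by positivity), fun m hm => ?_⟩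
  have hs := hM m (by omega)
  have h1 := hs.sum_add_tsum_nat_add N
  have h3 : val f m - ∑ k ∈ Finset.range N, ((f k : ℚ) : ℝ) / (k : ℝ) ^ m =
      ∑' n : ℕ, ((f (n + N) : ℚ) : ℝ) / ((n + N : ℕ) : ℝ) ^ m := by
    unfold val
    rw [← h1]
    ring
  rw [h3]
  obtain ⟨l, rfl⟩ : ∃ l, m = l + (A + 2) := ⟨m - (A + 2), by omega⟩
  have h4 : ∀ n : ℕ, ‖((f (n + N) : ℚ) : ℝ) / ((n + N : ℕ) : ℝ) ^ (l + (A + 2))‖ ≤
      (C * (N : ℝ) ^ (A + 2) * (1 / (N : ℝ)) ^ (l + (A + 2))) * (1 / ((n + N : ℕ) : ℝ) ^ 2) := by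
    intro n
    set k : ℝ := ((n + N : ℕ) : ℝ) with hk
    have hkN : (N : ℝ) ≤ k := by
      rw [hk]
      push_cast
      linarith [(Nat.cast_nonneg n : (0:ℝ) ≤ n)]
    have hk0 : 0 < k := lt_of_lt_of_le hN' hkN
    have h5 : |((f (n + N) : ℚ) : ℝ)| ≤ C * k ^ A := hC (n + N)
    rw [norm_div, norm_pow, Real.norm_eq_abs, Real.norm_eq_abs, abs_of_pos hk0]
    have h6 : C * (N : ℝ) ^ (A + 2) * (1 / (N : ℝ)) ^ (l + (A + 2)) = C * (1 / (N : ℝ)) ^ l := by
      rw [pow_add (1 / (N : ℝ)) l (A + 2), mul_assoc]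
      congr 1
      rw [mul_comm ((1 / (N : ℝ)) ^ l), ← mul_assoc, ← mul_pow, mul_one_div_cancel hN'.ne',
        one_pow, one_mul]
    rw [h6, div_le_iff₀ (by positivity)]
    have h7 : (1 : ℝ) ≤ (1 / (N : ℝ)) ^ l * k ^ l := by
      rw [← mul_pow]
      apply one_le_pow₀
      rw [one_div, ← div_eq_inv_mul, one_le_div hN']
      exact hkN
    have h8 : C * (1 / (N : ℝ)) ^ l * (1 / k ^ 2) * k ^ (l + (A + 2)) =
        C * k ^ A * ((1 / (N : ℝ)) ^ l * k ^ l) := by
      rw [pow_add, pow_add]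
      field_simp
    rw [h8]
    calc |((f (n + N) : ℚ) : ℝ)| ≤ C * k ^ A := h5
      _ = C * k ^ A * 1 := (mul_one _).symm
      _ ≤ _ := mul_le_mul_of_nonneg_left h7 (by positivity)
  have h5 := tsum_of_norm_bounded (hs0.hasSum.mul_left
    (C * (N : ℝ) ^ (A + 2) * (1 / (N : ℝ)) ^ (l + (A + 2)))) h4
  rw [Real.norm_eq_abs] at h5
  refine h5.trans (le_of_eq ?_)
  ring

end Pool.Agent.Work.MP_f1a024_nt.AH

end

section

namespace Pool.Agent.Work.MP_f1a024_nt.AH

open Finset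

namespace ID5

lemma exists_ne {f : ArithmeticFunction ℚ} (hf : f ≠ 0) : ∃ n, f n ≠ 0 := by
  by_contra h
  push Not at h
  apply hf
  ext n
  rw [h n]
  rfl

end ID5

theorem prfD5 : D5 := by
  intro f g hfg
  by_contra hcon
  push Not at hcon
  obtain ⟨hf, hg⟩ := hcon
  classical
  have hf' := ID5.exists_ne hf
  have hg' := ID5.exists_ne hg
  set a := Nat.find hf' with ha
  set b := Nat.find hg' with hb
  have ha1 : f a ≠ 0 := Nat.find_spec hf'
  have hb1 : g b ≠ 0 := Nat.find_spec hg'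
  have ha0 : a ≠ 0 := by
    intro h
    rw [h] at ha1
    exact ha1 (ArithmeticFunction.map_zero)
  have hb0 : b ≠ 0 := by
    intro h
    rw [h] at hb1
    exact hb1 (ArithmeticFunction.map_zero)
  have hav : ∀ x < a, f x = 0 := by
    intro x hx
    by_contra h
    exact Nat.find_min hf' hx h
  have hbv : ∀ x < b, g x = 0 := by
    intro x hx
    by_contra h
    exact Nat.find_min hg' hx h
  have h1 : (f * g) (a * b) = f a * g b := by
    rw [ArithmeticFunction.mul_apply]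
    rw [Finset.sum_eq_single (a, b)]
    · intro x hx hne
      rw [Nat.mem_divisorsAntidiagonal] at hx
      by_cases hxa : x.1 < a
      · rw [hav _ hxa, zero_mul]
      by_cases hxb : x.2 < b
      · rw [hbv _ hxb, mul_zero]
      exfalso
      apply hne
      push Not at hxa hxb
      have hpos : 0 < a := Nat.pos_of_ne_zero ha0
      have hposb : 0 < b := Nat.pos_of_ne_zero hb0
      have e1 : x.1 = a := by
        by_contra hne1
        have : a < x.1 := lt_of_le_of_ne hxa (Ne.symm hne1)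
        have h2 : a * b < x.1 * x.2 := by
          calc a * b < x.1 * b := Nat.mul_lt_mul_of_pos_right this hposb
            _ ≤ x.1 * x.2 := Nat.mul_le_mul_left _ hxb
        omega
      have e2 : x.2 = b := by
        have h3 := hx.1
        rw [e1] at h3
        exact Nat.eq_of_mul_eq_mul_left hpos h3
      exact Prod.ext e1 e2
    · intro h
      exfalso
      apply h
      rw [Nat.mem_divisorsAntidiagonal]
      exact ⟨rfl, mul_ne_zero ha0 hb0⟩
  rw [hfg] at h1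
  have h2 : (0 : ArithmeticFunction ℚ) (a * b) = 0 := rfl
  rw [h2] at h1
  exact mul_ne_zero ha1 hb1 h1.symm

end Pool.Agent.Work.MP_f1a024_nt.AH

end

section

namespace Pool.Agent.Work.MP_f1a024_nt.AH

open Finset

namespace ID6

lemma isP_zero : IsP 0 := by
  have : {n | (0 : ArithmeticFunction ℚ) n ≠ 0} = ∅ := by
    ext n
    simp
  unfold IsP
  rw [this]
  exact Set.finite_empty

lemma isP_add (h1 : D1) (f g : ArithmeticFunction ℚ) (hf : IsP f) (hg : IsP g) : IsP (f + g) := by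
  have h2 : f + g = f - (0 - g) := by ring
  rw [h2]
  exact h1.2.2.2.2.1 _ _ hf (h1.2.2.2.2.1 _ _ isP_zero hg)

lemma isP_sum (h1 : D1) {ι : Type} [DecidableEq ι] (s : Finset ι) (f : ι → ArithmeticFunction ℚ)
    (hf : ∀ i ∈ s, IsP (f i)) : IsP (∑ i ∈ s, f i) := by
  induction s using Finset.induction_on with
  | empty => rw [Finset.sum_empty]; exact isP_zero
  | insert a s ha ih =>
    rw [Finset.sum_insert ha]
    exact isP_add h1 _ _ (hf a (Finset.mem_insert_self _ _))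
      (ih fun i hi => hf i (Finset.mem_insert_of_mem hi))

end ID6

theorem prfD6 (h1 : D1) (h5 : D5) : D6 := by
  intro ι _ _ f G i₁ hInd hG hG1 c hc hsum i
  have hPmul := h1.2.2.2.1
  have hPsub := h1.2.2.2.2.1
  set g : ι → ArithmeticFunction ℚ := fun j =>
    if h : j ≠ i₁ then c ⟨j, h⟩ * G i₁ else 0 - ∑ k : {i // i ≠ i₁}, c k * G k with hg
  have hgP : ∀ j, IsP (g j) := by
    intro j
    by_cases h : j ≠ i₁
    · rw [hg]
      simp only [h, ne_eq, not_false_eq_true, dite_true]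
      exact hPmul _ _ (hc _) (hG _)
    · rw [hg]
      simp only [h, ne_eq, not_false_eq_true, dite_false]
      exact hPsub _ _ ID6.isP_zero (ID6.isP_sum h1 _ _ fun k _ => hPmul _ _ (hc _) (hG _))
  have hgsum : ∑ j, g j * f j = 0 := by
    have h2 : ∑ j, g j * f j = g i₁ * f i₁ + ∑ k : {i // i ≠ i₁}, g k * f k := by
      rw [← Finset.add_sum_erase Finset.univ _ (Finset.mem_univ i₁)]
      congr 1
      apply Finset.sum_subtype (p := fun i => i ≠ i₁)
      intro x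
      simp
    rw [h2]
    have h3 : g i₁ = 0 - ∑ k : {i // i ≠ i₁}, c k * G k := by
      rw [hg]
      simp
    have h4 : ∀ k : {i // i ≠ i₁}, g k = c k * G i₁ := by
      intro k
      rw [hg]
      simp only [k.2, ne_eq, not_false_eq_true, dite_true]
    rw [h3]
    simp only [h4]
    have h5' : ∑ i : {i // i ≠ i₁}, c i * (G i₁ * f i - G i * f i₁) =
        (0 - ∑ k : {i // i ≠ i₁}, c k * G k) * f i₁ + ∑ k : {i // i ≠ i₁}, c k * G i₁ * f k := by
      rw [sub_mul, zero_mul, Finset.sum_mul, zero_sub, ← Finset.sum_neg_distrib,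
        ← Finset.sum_add_distrib]
      exact Finset.sum_congr rfl fun k _ => by ring
    rw [← h5', hsum]
  have h6 := hInd g hgP hgsum i
  have h7 : g i = c i * G i₁ := by
    rw [hg]
    simp only [i.2, ne_eq, not_false_eq_true, dite_true]
  rw [h7] at h6
  rcases h5 _ _ h6 with h | h
  · exact h
  · exact absurd h hG1

end Pool.Agent.Work.MP_f1a024_nt.AH

end

section

/-!
# MP_f1a024: the application of the Subspace theorem
-/

namespace Pool.Agent.Work.MP_f1a024_nt.AH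

open Finset Matrix NumberField
open Pool.Agent.Work.Tools.Subspace

namespace ID8

section places

variable (S : Finset (FinitePlace ℚ))

theorem fin_int_le (v : FinitePlace ℚ) (a : ℤ) : v (a : ℚ) ≤ 1 :=
  (intCast_mem (nO (∅ : Finset (FinitePlace ℚ))) a) v (by simp)

theorem inf_eq (v : InfinitePlace ℚ) (x : ℚ) : nN S (Sum.inl v) x = |(x : ℝ)| := by
  rw [IP2.nN_inl]
  have h : v.mult = 1 := by
    have : v.IsReal := by
      rw [Subsingleton.elim v Rat.infinitePlace]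
      exact Rat.isReal_infinitePlace
    exact InfinitePlace.mult_isReal ⟨v, this⟩
  rw [h, pow_one, Rat.infinitePlace_apply, Rat.cast_abs]

theorem fin_eq (v : {v : FinitePlace ℚ // v ∈ S}) (x : ℚ) : nN S (Sum.inr v) x = v.val x :=
  IP2.nN_inr S v x

theorem nN_div_pow (v : NV ℚ S) (a b : ℚ) (m : ℕ) :
    nN S v (a / b ^ m) = nN S v a * ((nN S v b) ^ m)⁻¹ := by
  by_cases hb : b = 0
  · subst hb
    rcases Nat.eq_zero_or_pos m with hm | hm
    · subst hm; simp
    · simp [zero_pow hm.ne', nN]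
  · have h1 : nN S v (a / b ^ m) * (nN S v b) ^ m = nN S v a := by
      have h2 : (nN S v b) ^ m = nN S v (b ^ m) := by
        induction m with
        | zero => simp [nN]
        | succ k ih => rw [pow_succ, pow_succ, ih, IP2.nN_mul]
      rw [h2, ← IP2.nN_mul, div_mul_cancel₀ _ (pow_ne_zero _ hb)]
    have h3 : (nN S v b) ^ m ≠ 0 := (pow_pos (IP2.nN_pos S v hb) m).ne'
    rw [← h1, mul_assoc, mul_inv_cancel₀ h3, mul_one]

end places

section matrix

variable {ι : Type} {T U : Finset ℕ}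

/-- the special indices -/
def Sp (i₀ : ι) (n₀ : ℕ) (T : Finset ℕ) (p : ι × {n : ℕ // n ∈ U}) : Prop :=
  p.1 = i₀ ∧ ∃ l ∈ T, (p.2 : ℕ) = n₀ * l

open Classical in
/-- the matrix of the forms at the real place -/
noncomputable def LJ (f : ι → ArithmeticFunction ℚ) (i₀ : ι) (n₀ N : ℕ) (T : Finset ℕ)
    (U : Finset ℕ) : Matrix (ι × {n : ℕ // n ∈ U}) (ι × {n : ℕ // n ∈ U}) ℚ := fun p q =>
  if Sp i₀ n₀ T p then
    (if (p.2 : ℕ) / n₀ ∣ (q.2 : ℕ) ∧ (q.2 : ℕ) / ((p.2 : ℕ) / n₀) < N then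
      f q.1 ((q.2 : ℕ) / ((p.2 : ℕ) / n₀)) else 0)
  else if p = q then 1 else 0

theorem mulVec_of_not_sp [Fintype ι] (f : ι → ArithmeticFunction ℚ) (i₀ : ι) (n₀ N : ℕ)
    (x : ι × {n : ℕ // n ∈ U} → ℚ) (p : ι × {n : ℕ // n ∈ U}) (hp : ¬ Sp i₀ n₀ T p) :
    (LJ f i₀ n₀ N T U *ᵥ x) p = x p := by
  classical
  simp only [Matrix.mulVec, dotProduct, LJ, if_neg hp]
  simp

theorem mulVec_of_sp [Fintype ι] (f : ι → ArithmeticFunction ℚ) (i₀ : ι) (n₀ N : ℕ)
    (hn₀ : 0 < n₀) (x : ι × {n : ℕ // n ∈ U} → ℚ) (l : ℕ) (hl : l ∈ T) (hU : n₀ * l ∈ U) :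
    (LJ f i₀ n₀ N T U *ᵥ x) (i₀, ⟨n₀ * l, hU⟩) =
      ∑ q : ι × {n : ℕ // n ∈ U}, (if l ∣ (q.2 : ℕ) ∧ (q.2 : ℕ) / l < N then
        f q.1 ((q.2 : ℕ) / l) else 0) * x q := by
  classical
  have hp : Sp (U := U) i₀ n₀ T (i₀, ⟨n₀ * l, hU⟩) := ⟨rfl, l, hl, rfl⟩
  simp only [Matrix.mulVec, dotProduct, LJ, if_pos hp, Nat.mul_div_cancel_left l hn₀]

theorem det_ne [Fintype ι] [DecidableEq ι] (f : ι → ArithmeticFunction ℚ) (i₀ : ι) (n₀ N : ℕ)
    (hn₀ : 0 < n₀) (hN : n₀ < N) (h0 : f i₀ n₀ ≠ 0) (hmin : ∀ k < n₀, f i₀ k = 0)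
    (hT : ∀ l ∈ T, 0 < l) (hTU : ∀ l ∈ T, n₀ * l ∈ U) : (LJ f i₀ n₀ N T U).det ≠ 0 := by
  classical
  intro hdet
  obtain ⟨x, hx0, hx⟩ := Matrix.exists_mulVec_eq_zero_iff.mpr hdet
  have hns : ∀ p, ¬ Sp i₀ n₀ T p → x p = 0 := by
    intro p hp
    rw [← mulVec_of_not_sp f i₀ n₀ N x p hp, hx]; rfl
  have key : ∀ l, ∀ hl : l ∈ T, x (i₀, ⟨n₀ * l, hTU l hl⟩) = 0 := by
    by_contra hcon
    push Not at hcon
    obtain ⟨l₁, hl₁, hx₁⟩ := hcon
    set T' : Finset ℕ := T.filter fun l => ∃ hl : l ∈ T, x (i₀, ⟨n₀ * l, hTU l hl⟩) ≠ 0 with hT'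
    have hne : T'.Nonempty := ⟨l₁, mem_filter.mpr ⟨hl₁, hl₁, hx₁⟩⟩
    have hmem := T'.max'_mem hne
    set l := T'.max' hne with hldef
    obtain ⟨-, hlT, hxl⟩ := mem_filter.mp hmem
    have hlpos := hT l hlT
    have hrow := congrFun hx (i₀, ⟨n₀ * l, hTU l hlT⟩)
    rw [mulVec_of_sp f i₀ n₀ N hn₀ x l hlT (hTU l hlT)] at hrow
    rw [Finset.sum_eq_single (i₀, ⟨n₀ * l, hTU l hlT⟩)] at hrow
    · rw [if_pos ⟨Dvd.intro_left n₀ rfl, by rwa [Nat.mul_div_cancel _ hlpos]⟩] at hrow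
      simp only [Nat.mul_div_cancel _ hlpos] at hrow
      have hrow' : f i₀ n₀ = 0 ∨ x (i₀, ⟨n₀ * l, hTU l hlT⟩) = 0 := by simpa using hrow
      rcases hrow' with h | h
      · exact h0 h
      · exact hxl h
    · intro q _ hq
      by_cases hxq : x q = 0
      · rw [hxq, mul_zero]
      · have hsp : Sp i₀ n₀ T q := by
          by_contra h
          exact hxq (hns q h)
        obtain ⟨h1, l', hl'T, h2⟩ := hsp
        have hq' : q = (i₀, ⟨n₀ * l', hTU l' hl'T⟩) := by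
          rcases q with ⟨q1, q2, q3⟩
          simp only at h1 h2
          subst h1 h2
          rfl
        have hl'mem : l' ∈ T' := mem_filter.mpr ⟨hl'T, hl'T, by rwa [← hq']⟩
        have hle : l' ≤ l := T'.le_max' l' hl'mem
        have hne' : l' ≠ l := by
          rintro rfl
          exact hq hq'
        have hlt : l' < l := lt_of_le_of_ne hle hne'
        have h3 : (if l ∣ (q.2 : ℕ) ∧ (q.2 : ℕ) / l < N then f q.1 ((q.2 : ℕ) / l) else 0) = 0 := by
          split_ifs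
          · rw [h1]
            refine hmin _ ?_
            rw [h2]
            refine Nat.div_lt_of_lt_mul ?_
            rw [mul_comm l n₀]
            exact Nat.mul_lt_mul_of_pos_left hlt hn₀
          · rfl
        rw [h3, zero_mul]
    · intro h; exact absurd (mem_univ _) h
  apply hx0
  funext p
  by_cases hp : Sp i₀ n₀ T p
  · obtain ⟨h1, l, hl, h2⟩ := hp
    have hp' : p = (i₀, ⟨n₀ * l, hTU l hl⟩) := by
      rcases p with ⟨q1, q2, q3⟩
      simp only at h1 h2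
      subst h1 h2
      rfl
    rw [hp', key l hl]; rfl
  · rw [hns p hp]; rfl

/-- the value of a special form at the point -/
theorem value [Fintype ι] (f : ι → ArithmeticFunction ℚ) (i₀ : ι) (n₀ N : ℕ) (hn₀ : 0 < n₀)
    (hT : ∀ l ∈ T, 0 < l) (hU : U = mulSet T N) (a : ι → ℤ) (m : ℕ) (l : ℕ) (hl : l ∈ T)
    (hlU : n₀ * l ∈ U) :
    (LJ f i₀ n₀ N T U *ᵥ (fun p => (a p.1 : ℚ) / ((p.2 : ℕ) : ℚ) ^ m)) (i₀, ⟨n₀ * l, hlU⟩) =
      ((l : ℚ) ^ m)⁻¹ * ∑ i, (a i : ℚ) * ∑ k ∈ Finset.range N, f i k / (k : ℚ) ^ m := by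
  classical
  have hlpos := hT l hl
  rw [mulVec_of_sp f i₀ n₀ N hn₀ _ l hl hlU, Fintype.sum_prod_type, Finset.mul_sum]
  refine Finset.sum_congr rfl fun i _ => ?_
  have h1 : ∑ y : {n : ℕ // n ∈ U}, (if l ∣ (y : ℕ) ∧ (y : ℕ) / l < N then
      f i ((y : ℕ) / l) else 0) * ((a i : ℚ) / ((y : ℕ) : ℚ) ^ m) =
      ∑ y ∈ U, (if l ∣ y ∧ y / l < N then f i (y / l) else 0) * ((a i : ℚ) / (y : ℚ) ^ m) :=
    Finset.sum_coe_sort U (fun y => (if l ∣ y ∧ y / l < N then f i (y / l) else 0) *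
      ((a i : ℚ) / (y : ℚ) ^ m))
  refine h1.trans ?_
  have h2 : ∑ y ∈ U, (if l ∣ y ∧ y / l < N then f i (y / l) else 0) * ((a i : ℚ) / (y : ℚ) ^ m) =
      ∑ y ∈ U.filter (fun y => l ∣ y ∧ y / l < N), f i (y / l) * ((a i : ℚ) / (y : ℚ) ^ m) := by
    rw [Finset.sum_filter]
    refine Finset.sum_congr rfl fun y _ => ?_
    split_ifs <;> simp
  rw [h2]
  have h3 : ∑ k ∈ Finset.range N, f i k / (k : ℚ) ^ m =
      ∑ k ∈ Finset.Ico 1 N, f i k / (k : ℚ) ^ m := by
    rcases Nat.eq_zero_or_pos N with hN | hN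
    · subst hN; simp
    · rw [Finset.range_eq_Ico, Finset.sum_eq_sum_Ico_succ_bot hN]
      simp
  rw [h3, Finset.mul_sum, Finset.mul_sum]
  refine Finset.sum_nbij' (fun y => y / l) (fun k => l * k) ?_ ?_ ?_ ?_ ?_
  · intro y hy
    obtain ⟨hyU, hd, hlt⟩ := mem_filter.mp hy
    rw [Finset.mem_Ico]
    refine ⟨?_, hlt⟩
    rw [hU, mulSet, mem_image] at hyU
    obtain ⟨⟨t, k⟩, htk, hy'⟩ := hyU
    rw [mem_product, Finset.mem_Ico] at htk
    have hypos : 0 < y := by
      rw [← hy']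
      exact Nat.mul_pos (hT t htk.1) htk.2.1
    exact Nat.div_pos (Nat.le_of_dvd hypos hd) hlpos
  · intro k hk
    rw [mem_filter]
    rw [Finset.mem_Ico] at hk
    refine ⟨?_, Dvd.intro k rfl, ?_⟩
    · rw [hU, mulSet, mem_image]
      exact ⟨(l, k), by rw [mem_product, Finset.mem_Ico]; exact ⟨hl, hk⟩, rfl⟩
    · rw [Nat.mul_div_cancel_left _ hlpos]; exact hk.2
  · intro y hy
    obtain ⟨-, hd, -⟩ := mem_filter.mp hy
    exact Nat.mul_div_cancel' hd
  · intro k hk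
    exact Nat.mul_div_cancel_left _ hlpos
  · intro y hy
    obtain ⟨hyU, hd, hlt⟩ := mem_filter.mp hy
    obtain ⟨k, rfl⟩ := hd
    rw [Nat.mul_div_cancel_left _ hlpos]
    have hl' : (l : ℚ) ≠ 0 := by exact_mod_cast hlpos.ne'
    by_cases hk : (k : ℚ) = 0
    · have hk' : k = 0 := by exact_mod_cast hk
      subst hk'
      simp
    · push_cast
      rw [mul_pow]
      field_simp

end matrix

section bounds

variable {ι : Type} [Fintype ι] {T U : Finset ℕ}

/-- the forms at the places -/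
noncomputable def AJ [DecidableEq ι] (S : Finset (FinitePlace ℚ)) (f : ι → ArithmeticFunction ℚ)
    (i₀ : ι) (n₀ N : ℕ) (T U : Finset ℕ) :
    NV ℚ S → Matrix (ι × {n : ℕ // n ∈ U}) (ι × {n : ℕ // n ∈ U}) ℚ
  | Sum.inl _ => LJ f i₀ n₀ N T U
  | Sum.inr _ => 1

open Classical in
/-- the weights -/
noncomputable def wt' (S : Finset (FinitePlace ℚ)) (i₀ : ι) (n₀ : ℕ) (T : Finset ℕ) (α β : ℝ) :
    NV ℚ S → (ι × {n : ℕ // n ∈ U}) → ℝ
  | Sum.inl _, p => if Sp i₀ n₀ T p then α else β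
  | Sum.inr _, _ => 1

open Classical in
theorem prod_le [DecidableEq ι] (S : Finset (FinitePlace ℚ)) (hU0 : ∀ n ∈ U, 0 < n)
    (hS : ∀ v : FinitePlace ℚ, v ∉ S → ∀ n ∈ U, v (n : ℚ) = 1)
    (f : ι → ArithmeticFunction ℚ) (i₀ : ι) (n₀ N : ℕ) (hn₀ : 0 < n₀)
    (hT : ∀ l ∈ T, 0 < l) (hU : U = mulSet T N) (hTU : ∀ l ∈ T, n₀ * l ∈ U)
    (a : ι → ℤ) (m : ℕ) (D β : ℝ) (ha : ∀ i, |(a i : ℝ)| ≤ β)
    (hD : |∑ i, (a i : ℝ) * ∑ k ∈ Finset.range N, ((f i k : ℚ) : ℝ) / (k : ℝ) ^ m| ≤ D) :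
    ∏ v : NV ℚ S, ∏ p, nN S v ((AJ S f i₀ n₀ N T U v *ᵥ
      (fun p => (a p.1 : ℚ) / ((p.2 : ℕ) : ℚ) ^ m)) p) ≤
      ∏ p : ι × {n : ℕ // n ∈ U}, if Sp i₀ n₀ T p then (n₀ : ℝ) ^ m * D else β := by
  have hpos : ∀ (v : NV ℚ S) (p : ι × {n : ℕ // n ∈ U}), 0 < nN S v (((p.2 : ℕ)) : ℚ) := by
    intro v p
    refine IP2.nN_pos S v ?_
    exact_mod_cast (hU0 p.2 p.2.2).ne'
  have key : ∀ (v : NV ℚ S) (p : ι × {n : ℕ // n ∈ U}),
      nN S v ((AJ S f i₀ n₀ N T U v *ᵥ (fun p => (a p.1 : ℚ) / ((p.2 : ℕ) : ℚ) ^ m)) p) ≤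
      ((nN S v (((p.2 : ℕ)) : ℚ)) ^ m)⁻¹ * wt' S i₀ n₀ T ((n₀ : ℝ) ^ m * D) β v p := by
    intro v p
    rcases v with v | v
    · by_cases hp : Sp i₀ n₀ T p
      · simp only [wt', if_pos hp]
        obtain ⟨h1, l, hl, h2⟩ := hp
        have hp' : p = (i₀, ⟨n₀ * l, hTU l hl⟩) := by
          rcases p with ⟨q1, q2, q3⟩
          simp only at h1 h2
          subst h1 h2
          rfl
        rw [hp']
        simp only [AJ]
        rw [value f i₀ n₀ N hn₀ hT hU a m l hl (hTU l hl), inf_eq, inf_eq]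
        have hl0 : (0 : ℝ) < l := by exact_mod_cast hT l hl
        have hn0 : (0 : ℝ) < n₀ := by exact_mod_cast hn₀
        push_cast
        rw [abs_mul, abs_inv, abs_of_pos (pow_pos hl0 m), abs_of_pos (mul_pos hn0 hl0)]
        have h3 : ((↑n₀ * (l : ℝ)) ^ m)⁻¹ * ((n₀ : ℝ) ^ m * D) = ((l : ℝ) ^ m)⁻¹ * D := by
          rw [mul_pow]
          field_simp
        rw [h3]
        exact mul_le_mul_of_nonneg_left hD (by positivity)
      · simp only [wt', if_neg hp, AJ]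
        rw [mulVec_of_not_sp f i₀ n₀ N _ p hp, nN_div_pow, mul_comm]
        refine mul_le_mul_of_nonneg_left ?_ (inv_nonneg.mpr (pow_pos (hpos _ p) m).le)
        rw [inf_eq]
        simpa using ha p.1
    · simp only [wt', AJ, Matrix.one_mulVec]
      rw [nN_div_pow, mul_comm]
      refine mul_le_mul_of_nonneg_left ?_ (inv_nonneg.mpr (pow_pos (hpos _ p) m).le)
      rw [fin_eq]
      exact fin_int_le _ _
  have h1 : ∏ v : NV ℚ S, ∏ p, nN S v ((AJ S f i₀ n₀ N T U v *ᵥ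
      (fun p => (a p.1 : ℚ) / ((p.2 : ℕ) : ℚ) ^ m)) p) ≤
      ∏ v : NV ℚ S, ∏ p : ι × {n : ℕ // n ∈ U},
        (((nN S v (((p.2 : ℕ)) : ℚ)) ^ m)⁻¹ * wt' S i₀ n₀ T ((n₀ : ℝ) ^ m * D) β v p) := by
    refine Finset.prod_le_prod (fun v _ => Finset.prod_nonneg fun p _ => IP2.nN_nonneg S v _)
      fun v _ => Finset.prod_le_prod (fun p _ => IP2.nN_nonneg S v _) fun p _ => key v p
  refine h1.trans (le_of_eq ?_)
  simp only [Finset.prod_mul_distrib]
  have h2 : ∏ v : NV ℚ S, ∏ p : ι × {n : ℕ // n ∈ U}, ((nN S v (((p.2 : ℕ)) : ℚ)) ^ m)⁻¹ = 1 := by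
    rw [Finset.prod_comm]
    refine Finset.prod_eq_one fun p _ => ?_
    rw [Finset.prod_inv_distrib, Finset.prod_pow, IP2.prod_nN_eq_one S, one_pow, inv_one]
    · exact_mod_cast (hU0 p.2 p.2.2).ne'
    · intro v hv
      exact hS v hv _ p.2.2
  rw [h2, one_mul, Fintype.prod_sum_type]
  simp only [wt', Finset.prod_const_one, mul_one]
  rw [Fintype.prod_unique]

open Classical in
theorem prod_ite_le (i₀ : ι) (n₀ : ℕ) (hn₀ : 0 < n₀) (hT1 : T.Nonempty)
    (hTU : ∀ l ∈ T, n₀ * l ∈ U) (hcard : U.card ≤ 2 * T.card)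
    (α β : ℝ) (hα : 0 ≤ α) (hα1 : α ≤ 1) (hβ : 1 ≤ β)
    (hαβ : α * β ^ (2 * Fintype.card ι) ≤ 1) :
    (∏ p : ι × {n : ℕ // n ∈ U}, if Sp i₀ n₀ T p then α else β) ≤
      α * β ^ (2 * Fintype.card ι) := by
  rw [Finset.prod_ite, Finset.prod_const, Finset.prod_const]
  have h1 : T.card ≤ ((univ : Finset (ι × {n : ℕ // n ∈ U})).filter fun p => Sp i₀ n₀ T p).card := by
    rw [← Finset.card_attach]
    refine Finset.card_le_card_of_injOn (fun l => (i₀, ⟨n₀ * l, hTU l l.2⟩)) ?_ ?_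
    · intro l _
      simp only [coe_filter, mem_univ, true_and, Set.mem_ofPred_eq]
      exact ⟨rfl, l, l.2, rfl⟩
    · intro l _ l' _ h
      have h2 : n₀ * (l : ℕ) = n₀ * l' := by
        have := congrArg (fun p : ι × {n : ℕ // n ∈ U} => (p.2 : ℕ)) h
        simpa using this
      exact Subtype.ext (Nat.eq_of_mul_eq_mul_left hn₀ h2)
  have h2 : ((univ : Finset (ι × {n : ℕ // n ∈ U})).filter fun p => ¬ Sp i₀ n₀ T p).card ≤
      2 * Fintype.card ι * T.card := by
    refine (Finset.card_filter_le _ _).trans ?_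
    rw [Finset.card_univ, Fintype.card_prod, Fintype.card_coe]
    calc Fintype.card ι * U.card ≤ Fintype.card ι * (2 * T.card) := Nat.mul_le_mul_left _ hcard
      _ = 2 * Fintype.card ι * T.card := by ring
  have h3 : α ^ ((univ : Finset (ι × {n : ℕ // n ∈ U})).filter fun p => Sp i₀ n₀ T p).card ≤
      α ^ T.card := pow_le_pow_of_le_one hα hα1 h1
  have h4 : β ^ ((univ : Finset (ι × {n : ℕ // n ∈ U})).filter fun p => ¬ Sp i₀ n₀ T p).card ≤
      β ^ (2 * Fintype.card ι * T.card) := pow_le_pow_right₀ hβ h2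
  have hβ0 : 0 ≤ β := zero_le_one.trans hβ
  calc _ ≤ α ^ T.card * β ^ (2 * Fintype.card ι * T.card) :=
        mul_le_mul h3 h4 (pow_nonneg hβ0 _) (pow_nonneg hα _)
    _ = (α * β ^ (2 * Fintype.card ι)) ^ T.card := by rw [mul_pow, ← pow_mul]
    _ ≤ (α * β ^ (2 * Fintype.card ι)) ^ 1 :=
        pow_le_pow_of_le_one (by positivity) hαβ (Finset.card_pos.mpr hT1)
    _ = _ := pow_one _

theorem single_le_prod {α : Type} [DecidableEq α] (s : Finset α) (f : α → ℝ)
    (h : ∀ a ∈ s, 1 ≤ f a) {a : α} (ha : a ∈ s) : f a ≤ ∏ a ∈ s, f a := by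
  rw [← Finset.mul_prod_erase s f ha]
  exact le_mul_of_one_le_right (zero_le_one.trans (h a ha))
    (Finset.one_le_prod fun b hb => h b (Finset.mem_of_mem_erase hb))

/-- the heights of the points grow at most exponentially -/
theorem exists_delta [Nonempty ι] (S : Finset (FinitePlace ℚ))
    (h1U : 1 ∈ U) (B : ℝ) (hB : 1 ≤ B) {n : ℕ} (e : ι × {n : ℕ // n ∈ U} ≃ Fin n) :
    ∃ δ : ℝ, 0 < δ ∧ ∀ (m : ℕ) (a : ι → ℤ), a ≠ 0 → (∀ i, |(a i : ℝ)| ≤ B ^ m) →
      ((1 / 2 : ℝ)) ^ m ≤ (∏ v, nnrm S v (fun j =>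
        (a (e.symm j).1 : ℚ) / (((e.symm j).2 : ℕ) : ℚ) ^ m)) ^ (-δ) := by
  classical
  set Q : NV ℚ S → ℝ := fun v => B * ∏ n ∈ U, max 1 (nN S v ((n : ℕ) : ℚ))⁻¹ with hQ
  have hR1 : ∀ v, 1 ≤ ∏ n ∈ U, max 1 (nN S v ((n : ℕ) : ℚ))⁻¹ := fun v =>
    Finset.one_le_prod fun n _ => le_max_left _ _
  have hQ1 : ∀ v, 1 ≤ Q v := fun v => one_le_mul_of_one_le_of_one_le hB (hR1 v)
  have hPQ1 : 1 ≤ ∏ v, Q v := Finset.one_le_prod fun v _ => hQ1 v
  have hlog : 0 ≤ Real.log (∏ v, Q v) := Real.log_nonneg hPQ1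
  have hlog2 : 0 < Real.log 2 := Real.log_pos one_lt_two
  refine ⟨Real.log 2 / (Real.log (∏ v, Q v) + 1), by positivity, fun m a ha0 ha => ?_⟩
  set δ := Real.log 2 / (Real.log (∏ v, Q v) + 1) with hδ
  have hδ0 : 0 < δ := by positivity
  set x : Fin n → ℚ := fun j => (a (e.symm j).1 : ℚ) / (((e.symm j).2 : ℕ) : ℚ) ^ m with hx
  have : Nonempty (Fin n) := ⟨e (Classical.arbitrary ι, ⟨1, h1U⟩)⟩
  -- upper bound
  have hup : ∀ v, nnrm S v x ≤ Q v ^ m := by
    intro v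
    obtain ⟨j, hj⟩ := IU2.exists_nN_eq_nnrm S v x
    rw [hj, hx]
    simp only
    set p := e.symm j
    rw [nN_div_pow, hQ]
    simp only
    rw [mul_pow, ← inv_pow]
    have h1 : nN S v (a p.1 : ℚ) ≤ B ^ m := by
      rcases v with v | v
      · rw [inf_eq]; simpa using ha p.1
      · rw [fin_eq]; exact (fin_int_le _ _).trans (one_le_pow₀ hB)
    have h2 : (nN S v (((p.2 : ℕ)) : ℚ))⁻¹ ≤ ∏ n ∈ U, max 1 (nN S v ((n : ℕ) : ℚ))⁻¹ := by
      refine (le_max_right 1 _).trans ?_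
      exact single_le_prod U (fun n : ℕ => max 1 (nN S v ((n : ℕ) : ℚ))⁻¹)
        (fun n _ => le_max_left _ _) p.2.2
    have h3 : 0 ≤ (nN S v (((p.2 : ℕ)) : ℚ))⁻¹ := inv_nonneg.mpr (IP2.nN_nonneg S v _)
    exact mul_le_mul h1 (pow_le_pow_left₀ h3 h2 m) (pow_nonneg h3 m) (by positivity)
  -- positivity
  have hlow : ∀ v, 0 < nnrm S v x := by
    intro v
    obtain ⟨i, hi⟩ : ∃ i, a i ≠ 0 := by
      by_contra h
      push Not at h
      exact ha0 (funext h)
    have h1 : x (e (i, ⟨1, h1U⟩)) ≠ 0 := by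
      rw [hx]
      simp only [Equiv.symm_apply_apply]
      simpa using hi
    exact lt_of_lt_of_le (IP2.nN_pos S v h1) (IU2.nN_le_nnrm S v x _)
  have hP : ∏ v, nnrm S v x ≤ (∏ v, Q v) ^ m := by
    rw [← Finset.prod_pow]
    exact Finset.prod_le_prod (fun v _ => (hlow v).le) fun v _ => hup v
  have hP0 : 0 < ∏ v, nnrm S v x := Finset.prod_pos fun v _ => hlow v
  have h4 : ((∏ v, Q v) ^ m) ^ (-δ) ≤ (∏ v, nnrm S v x) ^ (-δ) :=
    Real.rpow_le_rpow_of_nonpos hP0 hP (by linarith)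
  refine le_trans ?_ h4
  rw [← Real.rpow_natCast, ← Real.rpow_natCast, ← Real.rpow_mul (by positivity),
    Real.rpow_def_of_pos (by norm_num : (0:ℝ) < 1 / 2), Real.rpow_def_of_pos (by positivity)]
  refine Real.exp_le_exp.mpr ?_
  have h5 : Real.log (1 / 2) = -Real.log 2 := by rw [one_div, Real.log_inv]
  rw [h5]
  have h6 : δ * Real.log (∏ v, Q v) ≤ Real.log 2 := by
    rw [hδ, div_mul_eq_mul_div, div_le_iff₀ (by positivity)]
    nlinarith
  have h7 : (0 : ℝ) ≤ m := Nat.cast_nonneg _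
  nlinarith

end bounds

end ID8

theorem prfD8 (hN1 : ClaimN1) (h4 : D4) (h7 : D7) : D8 := by
  classical
  intro ι _ _ f i₀ hPG hf0 B hB
  have hex : ∃ n, f i₀ n ≠ 0 := by
    by_contra h
    push Not at h
    exact hf0 (ArithmeticFunction.ext h)
  set n₀ := Nat.find hex with hn₀def
  have h0 : f i₀ n₀ ≠ 0 := Nat.find_spec hex
  have hmin : ∀ k < n₀, f i₀ k = 0 := fun k hk => by
    have := Nat.find_min hex hk
    simpa using this
  have hn₀ : 0 < n₀ := by
    rcases Nat.eq_zero_or_pos n₀ with h | h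
    · rw [h] at h0; simp at h0
    · exact h
  have hn₀' : (0 : ℝ) < n₀ := by exact_mod_cast hn₀
  set r := Fintype.card ι with hr
  obtain ⟨N, hN⟩ := exists_nat_ge (4 * B ^ (2 * r + 1) * n₀ + n₀ + 3)
  have hBpow : (0 : ℝ) ≤ 4 * B ^ (2 * r + 1) * n₀ := by positivity
  have hNn : n₀ < N := by
    have : (n₀ : ℝ) < N := by linarith
    exact_mod_cast this
  have hN3 : 3 ≤ N := by
    have : (3 : ℝ) ≤ N := by linarith
    exact_mod_cast this
  have hN4 : 4 * B ^ (2 * r + 1) * n₀ ≤ N := by linarith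
  have hN0 : (0 : ℝ) < N := by
    have : 0 < N := by omega
    exact_mod_cast this
  obtain ⟨T, h1T, hTpos, hcard⟩ := h7 N (by omega)
  set U := mulSet T N with hU
  have hmemU : ∀ l ∈ T, ∀ k, 1 ≤ k → k < N → l * k ∈ U := by
    intro l hl k hk1 hk2
    rw [hU, mulSet, mem_image]
    exact ⟨(l, k), by rw [mem_product, Finset.mem_Ico]; exact ⟨hl, hk1, hk2⟩, rfl⟩
  have hTU : ∀ l ∈ T, n₀ * l ∈ U := by
    intro l hl
    rw [mul_comm]
    exact hmemU l hl n₀ hn₀ hNn
  have hU0 : ∀ n ∈ U, 0 < n := by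
    intro n hn
    rw [hU, mulSet, mem_image] at hn
    obtain ⟨⟨t, k⟩, htk, rfl⟩ := hn
    rw [mem_product, Finset.mem_Ico] at htk
    exact Nat.mul_pos (hTpos t htk.1) htk.2.1
  have h1U : 1 ∈ U := by simpa using hmemU 1 h1T 1 le_rfl (by omega)
  have h2U : 2 ∈ U := by simpa using hmemU 1 h1T 2 (by omega) (by omega)
  have hfin : (⋃ n ∈ U, {v : FinitePlace ℚ | v (n : ℚ) ≠ 1}).Finite :=
    Set.Finite.biUnion U.finite_toSet fun n hn =>
      FinitePlace.hasFiniteMulSupport (by exact_mod_cast (hU0 n hn).ne')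
  set S := hfin.toFinset with hSdef
  have hS : ∀ v : FinitePlace ℚ, v ∉ S → ∀ n ∈ U, v (n : ℚ) = 1 := by
    intro v hv n hn
    by_contra h
    apply hv
    rw [hSdef, Set.Finite.mem_toFinset]
    exact Set.mem_biUnion hn h
  choose C M hC hM using fun i => h4 (f i) (hPG i) N (by omega)
  have hCs : 0 ≤ ∑ i, C i := Finset.sum_nonneg fun i _ => hC i
  obtain ⟨M₂, hM₂⟩ := pow_unbounded_of_one_lt (1 + ∑ i, C i) (one_lt_two (α := ℝ))
  have : Nonempty ι := ⟨i₀⟩
  set n := Fintype.card (ι × {n : ℕ // n ∈ U}) with hndef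
  set e : ι × {n : ℕ // n ∈ U} ≃ Fin n := Fintype.equivFin _ with he
  have hn2 : 2 ≤ n := by
    rw [hndef, Fintype.card_prod, Fintype.card_coe]
    have hU2 : 2 ≤ U.card := by
      have : ({1, 2} : Finset ℕ) ⊆ U := by
        intro k hk
        rcases Finset.mem_insert.mp hk with rfl | hk
        · exact h1U
        · rw [Finset.mem_singleton.mp hk]; exact h2U
      simpa using Finset.card_le_card this
    have hr1 : 1 ≤ Fintype.card ι := Fintype.card_pos
    nlinarith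
  obtain ⟨δ, hδ, hδ'⟩ := ID8.exists_delta S h1U B hB e
  set A : NV ℚ S → Matrix (Fin n) (Fin n) ℚ := fun v =>
    (ID8.AJ S f i₀ n₀ N T U v).submatrix e.symm e.symm with hA
  have hAdet : ∀ v, (A v).det ≠ 0 := by
    intro v
    rw [hA]
    simp only
    rw [Matrix.det_submatrix_equiv_self]
    rcases v with v | v
    · exact ID8.det_ne f i₀ n₀ N hn₀ hNn h0 hmin hTpos hTU
    · simp [ID8.AJ]
  obtain ⟨𝒯, hfin𝒯, hproper, hsub⟩ := hN1 ℚ S n A δ hn2 hAdet hδ
  have hrel : ∀ W : Submodule ℚ (Fin n → ℚ), ∃ b : Fin n → ℚ,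
      W ≠ ⊤ → (b ≠ 0 ∧ ∀ y ∈ W, ∑ i, b i * y i = 0) := by
    intro W
    by_cases h : W = ⊤
    · exact ⟨0, fun h' => absurd h h'⟩
    · obtain ⟨b, hb⟩ := IU2.exists_relation h
      exact ⟨b, fun _ => hb⟩
  choose b hb using hrel
  have h0U : (0 : ℕ) ∉ U := fun h => lt_irrefl 0 (hU0 0 h)
  set G : Submodule ℚ (Fin n → ℚ) → ι → ArithmeticFunction ℚ := fun W i =>
    ⟨fun k => if h : k ∈ U then b W (e (i, ⟨k, h⟩)) else 0, by simp [h0U]⟩ with hG
  have hGapp : ∀ W i k, G W i k = if h : k ∈ U then b W (e (i, ⟨k, h⟩)) else 0 := fun W i k => rfl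
  refine ⟨1 / N, (∑ i, M i) + M₂, G '' 𝒯, by positivity, hfin𝒯.image _, ?_, ?_⟩
  · rintro _ ⟨W, hW, rfl⟩
    obtain ⟨hb0, -⟩ := hb W (hproper W hW)
    refine ⟨fun i => ?_, ?_⟩
    · refine U.finite_toSet.subset fun k hk => ?_
      by_contra hkU
      have hkU' : k ∉ U := fun h => hkU (Finset.mem_coe.mpr h)
      exact hk (by rw [hGapp, dif_neg hkU'])
    · by_contra hcon
      push Not at hcon
      apply hb0
      funext j
      have h1 := congrArg (fun g : ArithmeticFunction ℚ => g ((e.symm j).2 : ℕ)) (hcon (e.symm j).1)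
      simp only [hGapp] at h1
      rw [dif_pos (e.symm j).2.2] at h1
      simpa using h1
  · intro m hm a ha0 ha hlt
    have hmM : ∀ i, M i ≤ m := fun i =>
      (Finset.single_le_sum (fun i _ => Nat.zero_le (M i)) (mem_univ i)).trans
        ((Nat.le_add_right _ _).trans hm)
    have hmM₂ : M₂ ≤ m := (Nat.le_add_left _ _).trans hm
    have hBN : (0 : ℝ) ≤ (1 / (N : ℝ)) ^ m := by positivity
    have hBm : (1 : ℝ) ≤ B ^ m := one_le_pow₀ hB
    set x : ι × {n : ℕ // n ∈ U} → ℚ := fun p => (a p.1 : ℚ) / ((p.2 : ℕ) : ℚ) ^ m with hx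
    set D : ℝ := (1 + ∑ i, C i) * (B / N) ^ m with hD
    have hDle : |∑ i, (a i : ℝ) * ∑ k ∈ Finset.range N, ((f i k : ℚ) : ℝ) / (k : ℝ) ^ m| ≤ D := by
      have e1 : ∑ i, (a i : ℝ) * ∑ k ∈ Finset.range N, ((f i k : ℚ) : ℝ) / (k : ℝ) ^ m =
          (∑ i, (a i : ℝ) * val (f i) m) - ∑ i, (a i : ℝ) * (val (f i) m -
            ∑ k ∈ Finset.range N, ((f i k : ℚ) : ℝ) / (k : ℝ) ^ m) := by
        rw [← Finset.sum_sub_distrib]
        exact Finset.sum_congr rfl fun i _ => by ring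
      have e2 : |∑ i, (a i : ℝ) * (val (f i) m -
          ∑ k ∈ Finset.range N, ((f i k : ℚ) : ℝ) / (k : ℝ) ^ m)| ≤
          ∑ i, B ^ m * (C i * (1 / (N : ℝ)) ^ m) := by
        refine (Finset.abs_sum_le_sum_abs _ _).trans (Finset.sum_le_sum fun i _ => ?_)
        rw [abs_mul]
        exact mul_le_mul (ha i) (hM i m (hmM i)) (abs_nonneg _) (by positivity)
      rw [e1]
      refine (abs_sub _ _).trans ?_
      have e3 : ∑ i, B ^ m * (C i * (1 / (N : ℝ)) ^ m) =
          (∑ i, C i) * (B ^ m * (1 / (N : ℝ)) ^ m) := by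
        rw [Finset.sum_mul]
        exact Finset.sum_congr rfl fun i _ => by ring
      have e4 : (B / N) ^ m = B ^ m * (1 / (N : ℝ)) ^ m := by
        rw [← mul_pow]; congr 1; ring
      rw [hD, e4, add_mul, one_mul]
      rw [e3] at e2
      have e5 : (1 / (N : ℝ)) ^ m ≤ B ^ m * (1 / (N : ℝ)) ^ m := le_mul_of_one_le_left hBN hBm
      linarith
    have hprod := ID8.prod_le S hU0 hS f i₀ n₀ N hn₀ hTpos hU hTU a m D (B ^ m) ha hDle
    have hαβ : (n₀ : ℝ) ^ m * D * (B ^ m) ^ (2 * Fintype.card ι) ≤ (1 / 2 : ℝ) ^ m := by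
      have e1 : (n₀ : ℝ) ^ m * D * (B ^ m) ^ (2 * Fintype.card ι) =
          (1 + ∑ i, C i) * (B ^ (2 * r + 1) * n₀ / N) ^ m := by
        rw [hD, ← hr, div_pow, div_pow, mul_pow, ← pow_mul, ← pow_mul, mul_comm m (2 * r),
          pow_mul, pow_mul, pow_succ]
        ring
      rw [e1]
      have e2 : B ^ (2 * r + 1) * n₀ / N ≤ 1 / 4 := by
        rw [div_le_iff₀ hN0]; linarith
      have e3 : (B ^ (2 * r + 1) * n₀ / N) ^ m ≤ (1 / 4 : ℝ) ^ m :=
        pow_le_pow_left₀ (by positivity) e2 m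
      have e4 : 1 + ∑ i, C i ≤ 2 ^ m :=
        hM₂.le.trans (pow_le_pow_right₀ one_le_two hmM₂)
      calc (1 + ∑ i, C i) * (B ^ (2 * r + 1) * n₀ / N) ^ m ≤ 2 ^ m * (1 / 4 : ℝ) ^ m :=
            mul_le_mul e4 e3 (by positivity) (by positivity)
        _ = (1 / 2 : ℝ) ^ m := by rw [← mul_pow]; norm_num
    have hα0 : 0 ≤ (n₀ : ℝ) ^ m * D := by
      have : 0 ≤ D := (abs_nonneg _).trans hDle
      positivity
    have h12 : (1 / 2 : ℝ) ^ m ≤ 1 := pow_le_one₀ (by norm_num) (by norm_num)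
    have hα1 : (n₀ : ℝ) ^ m * D ≤ 1 := by
      refine le_trans ?_ (hαβ.trans h12)
      exact le_mul_of_one_le_right hα0 (one_le_pow₀ hBm)
    have hfinal := ID8.prod_ite_le i₀ n₀ hn₀ ⟨1, h1T⟩ hTU hcard ((n₀ : ℝ) ^ m * D) (B ^ m) hα0 hα1
      hBm (hαβ.trans h12)
    have hineq : ∏ v, ∏ j, nN S v ((A v *ᵥ (fun j => x (e.symm j))) j) ≤
        (∏ v, nnrm S v (fun j => x (e.symm j))) ^ (-δ) := by
      refine le_trans ?_ (hδ' m a ha0 ha)
      refine le_trans (le_of_eq ?_) (hprod.trans (hfinal.trans hαβ))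
      refine Finset.prod_congr rfl fun v _ => ?_
      rw [← Equiv.prod_comp e]
      refine Finset.prod_congr rfl fun p _ => ?_
      have e1 : A v *ᵥ (fun j => x (e.symm j)) =
          (ID8.AJ S f i₀ n₀ N T U v *ᵥ x) ∘ e.symm := by
        rw [hA]
        simp only
        rw [Matrix.submatrix_mulVec_equiv]
        congr 2
        funext p
        simp
      rw [e1, Function.comp_apply, Equiv.symm_apply_apply]
    have hxO : ∀ j, x (e.symm j) ∈ nO S := by
      intro j v hv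
      rw [hx]
      simp only
      rw [map_div₀, map_pow, hS v hv _ (e.symm j).2.2, one_pow, div_one]
      exact ID8.fin_int_le v _
    have hx0 : (fun j => x (e.symm j)) ≠ 0 := by
      intro h
      apply ha0
      funext i
      have h1 := congrFun h (e (i, ⟨1, h1U⟩))
      simpa [hx] using h1
    obtain ⟨W, hW, hxW⟩ := hsub _ hxO hx0 hineq
    refine ⟨G W, ⟨W, hW, rfl⟩, ?_⟩
    have h1 := (hb W (hproper W hW)).2 _ hxW
    have h2 : ∑ p, b W (e p) * x p = 0 := by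
      rw [← Equiv.sum_comp e] at h1
      simpa using h1
    have h3 : ∀ i, val (G W i) m =
        ∑ k : {n : ℕ // n ∈ U}, ((b W (e (i, k)) : ℚ) : ℝ) / ((k : ℕ) : ℝ) ^ m := by
      intro i
      rw [val, tsum_eq_sum (s := U)]
      · rw [← Finset.sum_coe_sort U (fun k => ((G W i k : ℚ) : ℝ) / (k : ℝ) ^ m)]
        refine Finset.sum_congr rfl fun k _ => ?_
        rw [hGapp, dif_pos k.2]
      · intro k hk
        rw [hGapp, dif_neg hk]
        simp
    have h4 : ∑ i, (a i : ℝ) * val (G W i) m = ((∑ p, b W (e p) * x p : ℚ) : ℝ) := by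
      rw [Fintype.sum_prod_type]
      push_cast
      refine Finset.sum_congr rfl fun i _ => ?_
      rw [h3, Finset.mul_sum]
      refine Finset.sum_congr rfl fun k _ => ?_
      rw [hx]
      push_cast
      ring
    rw [h4, h2]
    simp

end Pool.Agent.Work.MP_f1a024_nt.AH

end

section

set_option autoImplicit false

namespace Pool.Agent.Work.MP_f1a024_nt.AH

open Finset Filter

namespace ID9

theorem unif {α : Type} (s : Set α) (hs : s.Finite) (Q : α → ℝ → ℕ → Prop)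
    (hmono : ∀ G θ M θ' M', 0 < θ' → θ' ≤ θ → M ≤ M' → Q G θ M → Q G θ' M')
    (h : ∀ G ∈ s, ∃ θ M, 0 < θ ∧ Q G θ M) : ∃ θ M, 0 < θ ∧ ∀ G ∈ s, Q G θ M := by
  classical
  obtain ⟨t, rfl⟩ := hs.exists_finset_coe
  induction t using Finset.induction_on with
  | empty => exact ⟨1, 0, one_pos, by simp⟩
  | insert b t hb ih =>
    obtain ⟨θ1, M1, q1, q2⟩ := ih t.finite_toSet fun G hG => h G (by
      rw [Finset.coe_insert]
      exact Set.mem_insert_of_mem _ hG)
    obtain ⟨θ2, M2, q3, q4⟩ := h b (by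
      rw [Finset.coe_insert]
      exact Set.mem_insert _ _)
    refine ⟨min θ1 θ2, max M1 M2, lt_min q1 q3, fun G hG => ?_⟩
    rw [Finset.coe_insert] at hG
    rcases hG with rfl | hG
    · exact hmono _ _ _ _ _ (lt_min q1 q3) (min_le_right _ _) (le_max_right _ _) q4
    · exact hmono _ _ _ _ _ (lt_min q1 q3) (min_le_left _ _) (le_max_left _ _) (q2 G hG)

theorem claim (h1 : D1) (h2 : D2) (h3 : D3) (h4 : D4) {ι : Type} [Fintype ι] [DecidableEq ι]
    (f G : ι → ArithmeticFunction ℚ) (hf : ∀ i, PG (f i)) (hG : ∀ i, IsP (G i)) (i₁ : ι)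
    (hi : G i₁ ≠ 0) (B : ℝ)
    (IH : ∃ (θ : ℝ) (M : ℕ), 0 < θ ∧ ∀ m ≥ M, ∀ a : {i // i ≠ i₁} → ℤ, a ≠ 0 →
      (∀ i, |(a i : ℝ)| ≤ B ^ m) → θ ^ m ≤ |∑ i, (a i : ℝ) *
        val (G i₁ * f i - G i * f i₁) m|) :
    ∃ (θ : ℝ) (M : ℕ), 0 < θ ∧ ∀ m ≥ M, ∀ a : ι → ℤ, a ≠ 0 → (∀ i, |(a i : ℝ)| ≤ B ^ m) →
      ∑ i, (a i : ℝ) * val (G i) m = 0 → θ ^ m ≤ |∑ i, (a i : ℝ) * val (f i) m| := by
  obtain ⟨θ, M, hθ, hIH⟩ := IH
  have hGP : ∀ i, PG (G i) := fun i => h1.2.2.1 _ (hG i)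
  have ev1 : ∀ i, ∀ᶠ m in atTop, val (G i₁ * f i - G i * f i₁) m =
      val (G i₁) m * val (f i) m - val (G i) m * val (f i₁) m := by
    intro i
    have e1 := eventually_atTop.2 (h2.2.1 _ _ (h1.1 _ _ (hGP i₁) (hf i))
      (h1.1 _ _ (hGP i) (hf i₁)))
    have e2 := eventually_atTop.2 (h2.2.2 _ _ (hGP i₁) (hf i))
    have e3 := eventually_atTop.2 (h2.2.2 _ _ (hGP i) (hf i₁))
    filter_upwards [e1, e2, e3] with m q1 q2 q3
    rw [q1, q2, q3]
  obtain ⟨C, M4, hC, h4'⟩ := h4 _ (hGP i₁) 1 one_pos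
  have ev2 : ∀ᶠ m in atTop, |val (G i₁) m| ≤ C := by
    refine eventually_atTop.2 ⟨M4, fun m hm => ?_⟩
    have q := h4' m hm
    simpa using q
  obtain ⟨θ3, M3, hθ3, h3'⟩ := h3 _ (hGP i₁) hi
  have ev3 : ∀ᶠ m in atTop, val (G i₁) m ≠ 0 := by
    refine eventually_atTop.2 ⟨M3, fun m hm h => ?_⟩
    have q := h3' m hm
    rw [h, abs_zero] at q
    exact absurd q (not_le.2 (by positivity))
  have ev4 : ∀ᶠ m : ℕ in atTop, C ≤ (2 : ℝ) ^ m :=
    (tendsto_pow_atTop_atTop_of_one_lt (by norm_num : (1 : ℝ) < 2)).eventually_ge_atTop C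
  have ev : ∀ᶠ m in atTop, ∀ a : ι → ℤ, a ≠ 0 → (∀ i, |(a i : ℝ)| ≤ B ^ m) →
      ∑ i, (a i : ℝ) * val (G i) m = 0 → (θ / 2) ^ m ≤ |∑ i, (a i : ℝ) * val (f i) m| := by
    filter_upwards [eventually_all.2 ev1, ev2, ev3, ev4, eventually_ge_atTop M] with m q1 q2 q3 q4 q5
    intro a ha hB hrel
    have hsum : ∑ i : {i // i ≠ i₁}, (a i : ℝ) * val (G i₁ * f i - G i * f i₁) m =
        val (G i₁) m * ∑ i, (a i : ℝ) * val (f i) m := by
      have s1 := Fintype.sum_eq_add_sum_subtype_ne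
        (fun i => (a i : ℝ) * val (G i₁ * f i - G i * f i₁) m) i₁
      have s2 : (a i₁ : ℝ) * val (G i₁ * f i₁ - G i₁ * f i₁) m = 0 := by
        rw [q1 i₁]
        ring
      have s3 : ∑ i, (a i : ℝ) * val (G i₁ * f i - G i * f i₁) m =
          val (G i₁) m * ∑ i, (a i : ℝ) * val (f i) m -
            (∑ i, (a i : ℝ) * val (G i) m) * val (f i₁) m := by
        rw [Finset.mul_sum, Finset.sum_mul, ← Finset.sum_sub_distrib]
        refine Finset.sum_congr rfl fun i _ => ?_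
        rw [q1 i]
        ring
      rw [hrel, zero_mul, sub_zero] at s3
      rw [← s3, s1, s2, zero_add]
    by_cases ha' : (fun i : {i // i ≠ i₁} => a i) = 0
    · exfalso
      have z : ∀ i, i ≠ i₁ → a i = 0 := fun i hi => congrFun ha' ⟨i, hi⟩
      have s1 : ∑ i, (a i : ℝ) * val (G i) m = (a i₁ : ℝ) * val (G i₁) m := by
        refine Finset.sum_eq_single i₁ (fun i _ hi => ?_) (fun h => absurd (Finset.mem_univ _) h)
        rw [z i hi]
        simp
      rw [hrel] at s1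
      rcases mul_eq_zero.1 s1.symm with h | h
      · apply ha
        funext i
        by_cases hi : i = i₁
        · rw [hi]
          exact_mod_cast h
        · exact z i hi
      · exact q3 h
    · have t1 := hIH m q5 (fun i => a i) ha' fun i => hB i
      rw [hsum, abs_mul] at t1
      have t2 : θ ^ m ≤ 2 ^ m * |∑ i, (a i : ℝ) * val (f i) m| :=
        t1.trans (mul_le_mul_of_nonneg_right (q2.trans q4) (abs_nonneg _))
      rw [div_pow, div_le_iff₀ (by positivity), mul_comm]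
      exact t2
  obtain ⟨M', hM'⟩ := eventually_atTop.1 ev
  exact ⟨θ / 2, M', by positivity, hM'⟩

end ID9

open ID9 in
theorem prfD9 (h1 : D1) (h2 : D2) (h3 : D3) (h4 : D4) (h6 : D6) (h8 : D8) : D9 := by
  have key : ∀ n : ℕ, ∀ (ι : Type) [Fintype ι] [DecidableEq ι], Fintype.card ι = n →
      ∀ (f : ι → ArithmeticFunction ℚ), (∀ i, PG (f i)) →
      Ind f → ∀ B : ℝ, 1 ≤ B → ∃ (θ : ℝ) (M : ℕ), 0 < θ ∧ ∀ m ≥ M, ∀ a : ι → ℤ, a ≠ 0 →
        (∀ i, |(a i : ℝ)| ≤ B ^ m) → θ ^ m ≤ |∑ i, (a i : ℝ) * val (f i) m| := by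
    intro n
    induction n with
    | zero =>
      intro ι _ _ hcard f _ _ B _
      have : IsEmpty ι := Fintype.card_eq_zero_iff.1 hcard
      exact ⟨1, 0, one_pos, fun m _ a ha => absurd (Subsingleton.elim _ _) ha⟩
    | succ n ih =>
      intro ι _ _ hcard f hf hind B hB
      have hne : Nonempty ι := Fintype.card_pos_iff.1 (by omega)
      obtain ⟨i₀⟩ := hne
      have hP0 : IsP 0 := by
        unfold IsP
        simp
      have hf0 : f i₀ ≠ 0 := by
        intro h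
        have q := hind (fun i => if i = i₀ then 1 else 0) (fun i => by
          by_cases hi : i = i₀
          · rw [if_pos hi]
            exact h1.2.2.2.2.2
          · rw [if_neg hi]
            exact hP0) (by
          simp [h]) i₀
        rw [if_pos rfl] at q
        have q2 : (1 : ArithmeticFunction ℚ) 1 = (0 : ArithmeticFunction ℚ) 1 := by rw [q]
        rw [ArithmeticFunction.one_one, ArithmeticFunction.zero_apply] at q2
        exact absurd q2 (by norm_num)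
      obtain ⟨θ0, M0, 𝒢, hθ0, hfin, hGG, hmain⟩ := h8 ι f i₀ hf hf0 B hB
      obtain ⟨θ1, M1, hθ1, hu⟩ := unif 𝒢 hfin
        (fun G θ M => ∀ m ≥ M, ∀ a : ι → ℤ, a ≠ 0 → (∀ i, |(a i : ℝ)| ≤ B ^ m) →
          ∑ i, (a i : ℝ) * val (G i) m = 0 → θ ^ m ≤ |∑ i, (a i : ℝ) * val (f i) m|)
        (by
          intro G θ M θ' M' hθ' hle hM hQ m hm a ha hB' hrel
          exact (pow_le_pow_left₀ hθ'.le hle m).trans (hQ m (hM.trans hm) a ha hB' hrel))
        (by
          intro G hG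
          obtain ⟨hGP, i₁, hi₁⟩ := hGG G hG
          refine claim h1 h2 h3 h4 f G hf hGP i₁ hi₁ B ?_
          refine ih {i // i ≠ i₁} ?_ (fun i => G i₁ * f i - G i * f i₁) (fun i => ?_)
            (h6 ι f G i₁ hind hGP hi₁) B hB
          · rw [Fintype.card_subtype_compl, hcard, Fintype.card_subtype_eq]
            rfl
          · exact h1.2.1 _ _ (h1.1 _ _ (h1.2.2.1 _ (hGP i₁)) (hf i))
              (h1.1 _ _ (h1.2.2.1 _ (hGP i)) (hf i₁)))
      refine ⟨min θ0 θ1, max M0 M1, lt_min hθ0 hθ1, fun m hm a ha hB' => ?_⟩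
      by_contra hlt
      rw [not_le] at hlt
      have hpos : 0 < min θ0 θ1 := lt_min hθ0 hθ1
      obtain ⟨G, hG, hrel⟩ := hmain m ((le_max_left _ _).trans hm) a ha hB'
        (hlt.trans_le (pow_le_pow_left₀ hpos.le (min_le_left _ _) m))
      have q := hu G hG m ((le_max_right _ _).trans hm) a ha hB' hrel
      exact absurd (hlt.trans_le (pow_le_pow_left₀ hpos.le (min_le_right _ _) m)) (not_lt.2 q)
  intro ι _ _ f hf hind B hB
  exact key _ ι rfl f hf hind B hB

end Pool.Agent.Work.MP_f1a024_nt.AH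

end

section

/-!
# Values of Dirichlet series at integers: several consecutive integers
-/

namespace Pool.Agent.Work.MP_f1a024_nt.AH

open Finset

/-- D13: multiplicative functions with different values at all large primes are independent over
the ring of Dirichlet polynomials -/
def D13 : Prop :=
  ∀ (ι : Type) [Fintype ι] [DecidableEq ι] (h : ι → ArithmeticFunction ℚ),
    (∀ i, (h i).IsMultiplicative) →
    (∀ i j, i ≠ j → ∃ X : ℕ, ∀ q : ℕ, q.Prime → X < q → h i q ≠ h j q) → Ind h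

/-- the coefficients of the shifted Dirichlet series -/
noncomputable def sh (j : ℕ) (f : ArithmeticFunction ℚ) : ArithmeticFunction ℚ :=
  ⟨fun n => f n / (n : ℚ) ^ j, by simp⟩

/-- D14: shifted Dirichlet series -/
def D14 : Prop :=
  (∀ j f, PG f → PG (sh j f)) ∧ (∀ j f m, val (sh j f) m = val f (m + j)) ∧
    (∀ j (f : ArithmeticFunction ℚ), f.IsMultiplicative → (sh j f).IsMultiplicative)

/-- `ζ(2n)/ζ(n)^2` -/
noncomputable def tt (n : ℕ) : ℂ := riemannZeta (2 * n) / riemannZeta n ^ 2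

/-- D15: the final result -/
def D15 : Prop :=
  ∀ (k d : ℕ) (B : ℝ), ∃ θ : ℝ, 0 < θ ∧ θ < 1 ∧ ∃ M : ℕ, ∀ m ≥ M,
    ∀ P : MvPolynomial (Fin (k + 1)) ℤ, P ≠ 0 → (∀ j, P.degreeOf j ≤ d) →
    (∀ s, |((P.coeff s : ℤ) : ℝ)| ≤ B ^ m) →
    θ ^ m ≤ ‖MvPolynomial.aeval (fun j : Fin (k + 1) => tt (m + j)) P‖

end Pool.Agent.Work.MP_f1a024_nt.AH

end

section

set_option autoImplicit false

/-!
# Item D13: multiplicative functions with different values at all large primes are independent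
over the ring of Dirichlet polynomials
-/

namespace Pool.Agent.Work.MP_f1a024_nt.AH

open Finset

namespace ID13

/-- elimination over a finite set of indices -/
theorem elim {ι : Type} [DecidableEq ι] (v : ι → ℕ → ℚ)
    (hv : ∀ i j, i ≠ j → ∃ X : ℕ, ∀ q : ℕ, q.Prime → X < q → v i q ≠ v j q) (A : Finset ι) :
    ∀ (c : ι → ℚ) (X : ℕ), (∀ Q : Finset ℕ, (∀ q ∈ Q, q.Prime ∧ X < q) →
      ∑ i ∈ A, c i * ∏ q ∈ Q, v i q = 0) → ∀ i ∈ A, c i = 0 := by
  induction A using Finset.induction_on with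
  | empty =>
    intro c X _ i hi
    exact absurd hi (Finset.notMem_empty i)
  | insert i1 A hi1 ih =>
    intro c X hQ
    have h0 : ∃ q0 : ℕ, q0.Prime ∧ X < q0 ∧ ∀ i ∈ A, v i q0 ≠ v i1 q0 := by
      have h1 : ∀ i : ι, ∃ T : ℕ, i ≠ i1 → ∀ q : ℕ, q.Prime → T < q → v i q ≠ v i1 q := by
        intro i
        by_cases hi : i = i1
        · exact ⟨0, fun h => absurd hi h⟩
        · obtain ⟨T, hT⟩ := hv i i1 hi
          exact ⟨T, fun _ => hT⟩
      choose T hT using h1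
      obtain ⟨q0, h2, h3⟩ := Nat.exists_infinite_primes (max X (A.sup T) + 1)
      refine ⟨q0, h3, by omega, fun i hi => hT i ?_ q0 h3 ?_⟩
      · rintro rfl
        exact hi1 hi
      · have := Finset.le_sup (f := T) hi
        omega
    obtain ⟨q0, hq0, hX, hne⟩ := h0
    have h1 : ∀ i ∈ A, c i * (v i q0 - v i1 q0) = 0 := by
      refine ih (fun i => c i * (v i q0 - v i1 q0)) q0 ?_
      intro Q hQ2
      have hq0Q : q0 ∉ Q := fun h => lt_irrefl _ (hQ2 q0 h).2
      have h2 := hQ Q fun q hq => ⟨(hQ2 q hq).1, hX.trans (hQ2 q hq).2⟩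
      have h3 := hQ (insert q0 Q) (by
        intro q hq
        rcases Finset.mem_insert.1 hq with rfl | hq
        · exact ⟨hq0, hX⟩
        · exact ⟨(hQ2 q hq).1, hX.trans (hQ2 q hq).2⟩)
      rw [Finset.sum_insert hi1] at h2 h3
      simp only [Finset.prod_insert hq0Q] at h3
      have h4 : ∑ i ∈ A, c i * (v i q0 - v i1 q0) * ∏ q ∈ Q, v i q =
          ∑ i ∈ A, c i * (v i q0 * ∏ q ∈ Q, v i q) - v i1 q0 * ∑ i ∈ A, c i * ∏ q ∈ Q, v i q := by
        rw [Finset.mul_sum, ← Finset.sum_sub_distrib]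
        exact Finset.sum_congr rfl fun i _ => by ring
      rw [h4]
      linear_combination h3 - v i1 q0 * h2
    have h2 : ∀ i ∈ A, c i = 0 := fun i hi =>
      (mul_eq_zero.1 (h1 i hi)).resolve_right (sub_ne_zero.2 (hne i hi))
    have h3 := hQ ∅ (by simp)
    rw [Finset.sum_insert hi1, Finset.sum_eq_zero (fun i hi => by rw [h2 i hi, zero_mul])] at h3
    simp only [Finset.prod_empty, mul_one, add_zero] at h3
    intro i hi
    rcases Finset.mem_insert.1 hi with rfl | hi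
    · exact h3
    · exact h2 i hi

/-- iteration of the key lemma -/
theorem key_prod (g h : ArithmeticFunction ℚ) (hh : h.IsMultiplicative) (n N : ℕ) (hn : 0 < n)
    (hnN : n ≤ N) (hg : ∀ a, g a ≠ 0 → a ≤ N) (Q : Finset ℕ) :
    (∀ q ∈ Q, q.Prime ∧ N < q) → (g * h) (n * ∏ q ∈ Q, q) = (g * h) n * ∏ q ∈ Q, h q := by
  classical
  induction Q using Finset.induction_on with
  | empty => simp
  | insert q Q hqQ ih =>
    intro hQ
    have hq := hQ q (Finset.mem_insert_self _ _)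
    have hQ2 : ∀ q ∈ Q, q.Prime ∧ N < q := fun p hp => hQ p (Finset.mem_insert_of_mem hp)
    rw [Finset.prod_insert hqQ, Finset.prod_insert hqQ]
    have h1 : n * (q * ∏ x ∈ Q, x) = (n * ∏ x ∈ Q, x) * q := by ring
    rw [h1, ID11.key g h hh q (n * ∏ x ∈ Q, x) hq.1, ih hQ2]
    · ring
    · exact Nat.mul_pos hn (Finset.prod_pos fun p hp => (hQ2 p hp).1.pos)
    · intro hd
      rcases (Nat.Prime.dvd_mul hq.1).1 hd with h2 | h2
      · have := Nat.le_of_dvd hn h2
        omega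
      · obtain ⟨p, hp, hqp⟩ := (Prime.dvd_finsetProd_iff hq.1.prime _).1 h2
        have := (Nat.prime_dvd_prime_iff_eq hq.1 (hQ2 p hp).1).1 hqp
        exact hqQ (this ▸ hp)
    · intro a ha hqa
      have h3 : a ≠ 0 := by
        rintro rfl
        exact ha ArithmeticFunction.map_zero
      have := Nat.le_of_dvd (Nat.pos_of_ne_zero h3) hqa
      have := hg a ha
      omega

end ID13

open ID13 in
theorem prfD13 (h5 : D5) : D13 := by
  intro ι _ _ h hmul hne g hg hsum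
  have hfin : (⋃ i : ι, {n | g i n ≠ 0}).Finite := Set.finite_iUnion fun i => hg i
  obtain ⟨N, hN⟩ := hfin.bddAbove
  have hN2 : ∀ i a, g i a ≠ 0 → a ≤ N := fun i a ha => hN (Set.mem_iUnion.2 ⟨i, ha⟩)
  have hzero : ∀ i, g i * h i = 0 := by
    have h1 : ∀ n : ℕ, 0 < n → ∀ i ∈ (Finset.univ : Finset ι), (g i * h i) n = 0 := by
      intro n hn
      refine elim (fun i q => h i q) hne Finset.univ (fun i => (g i * h i) n) (max n N) ?_
      intro Q hQ
      have h2 := congrArg (fun F : ArithmeticFunction ℚ => F (n * ∏ q ∈ Q, q)) hsum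
      simp only [ID11.sum_apply, ArithmeticFunction.zero_apply] at h2
      rw [← h2]
      refine Finset.sum_congr rfl fun i _ => ?_
      exact (key_prod (g i) (h i) (hmul i) n (max n N) hn (le_max_left _ _)
        (fun a ha => (hN2 i a ha).trans (le_max_right _ _)) Q hQ).symm
    intro i
    ext n
    rcases Nat.eq_zero_or_pos n with rfl | hn
    · simp
    · rw [h1 n hn i (Finset.mem_univ i), ArithmeticFunction.zero_apply]
  intro i
  rcases h5 _ _ (hzero i) with h1 | h1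
  · exact h1
  · exfalso
    have h2 : (h i) 1 = 1 := ArithmeticFunction.IsMultiplicative.map_one (hmul i)
    rw [h1, ArithmeticFunction.zero_apply] at h2
    exact zero_ne_one h2

end Pool.Agent.Work.MP_f1a024_nt.AH

end

section

/-!
# Item D14: shifted Dirichlet series
-/

namespace Pool.Agent.Work.MP_f1a024_nt.AH

namespace ID14

lemma sh_apply (j : ℕ) (f : ArithmeticFunction ℚ) (n : ℕ) : sh j f n = f n / (n : ℚ) ^ j := rfl

lemma abs_sh_le (j : ℕ) (f : ArithmeticFunction ℚ) (n : ℕ) :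
    |((sh j f n : ℚ) : ℝ)| ≤ |((f n : ℚ) : ℝ)| := by
  rw [sh_apply]
  rcases Nat.eq_zero_or_pos n with h | h
  · subst h
    simp
  · have h1 : (1:ℝ) ≤ (n:ℝ) ^ j := one_le_pow₀ (by exact_mod_cast h)
    push_cast
    rw [abs_div, abs_of_pos (lt_of_lt_of_le one_pos h1)]
    exact div_le_self (abs_nonneg _) h1

end ID14

open ID14 in
theorem prfD14 : D14 := by
  refine ⟨?_, ?_, ?_⟩
  · rintro j f ⟨C, A, h⟩
    exact ⟨C, A, fun n => (abs_sh_le j f n).trans (h n)⟩
  · intro j f m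
    unfold val
    congr 1
    funext n
    rw [sh_apply]
    push_cast
    rw [div_div, ← pow_add, add_comm j m]
  · intro j f hf
    refine ⟨?_, ?_⟩
    · rw [sh_apply, hf.1]
      simp
    · intro a b hab
      rw [sh_apply, sh_apply, sh_apply, hf.2 hab]
      push_cast
      rw [mul_pow, div_mul_div_comm]

end Pool.Agent.Work.MP_f1a024_nt.AH

end

section

/-!
# D15: the final result for several consecutive integers
-/

namespace Pool.Agent.Work.MP_f1a024_nt.AH

open Finset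

namespace ID15

theorem PG_prod (h1 : D1) {α : Type} (s : Finset α) (f : α → ArithmeticFunction ℚ)
    (hf : ∀ a ∈ s, PG (f a)) : PG (∏ a ∈ s, f a) :=
  Finset.prod_induction f PG (fun a b => h1.1 a b) (ID12.PG_one h1) hf

theorem val_prod (h1 : D1) (h2 : D2) {α : Type} (s : Finset α) (f : α → ArithmeticFunction ℚ)
    (hf : ∀ a, PG (f a)) : ∃ M : ℕ, ∀ m ≥ M, val (∏ a ∈ s, f a) m = ∏ a ∈ s, val (f a) m := by
  classical
  induction s using Finset.induction_on with
  | empty => exact ⟨0, fun m _ => by simp [ID12.val_one]⟩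
  | insert a s ha ih =>
    obtain ⟨M, hM⟩ := ih
    obtain ⟨M', hM'⟩ := h2.2.2 (f a) (∏ a ∈ s, f a) (hf a) (PG_prod h1 s f fun a _ => hf a)
    refine ⟨max M M', fun m hm => ?_⟩
    rw [prod_insert ha, prod_insert ha, hM' m (le_trans (le_max_right _ _) hm),
      hM m (le_trans (le_max_left _ _) hm)]

theorem mult_prod {α : Type} (s : Finset α) (f : α → ArithmeticFunction ℚ)
    (hf : ∀ a, (f a).IsMultiplicative) : (∏ a ∈ s, f a).IsMultiplicative :=
  Finset.prod_induction f ArithmeticFunction.IsMultiplicative (fun _ _ ha hb => ha.mul hb)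
    ArithmeticFunction.isMultiplicative_one fun a _ => hf a

theorem mult_pow (f : ArithmeticFunction ℚ) (hf : f.IsMultiplicative) (n : ℕ) :
    (f ^ n).IsMultiplicative := by
  induction n with
  | zero => rw [pow_zero]; exact ArithmeticFunction.isMultiplicative_one
  | succ n ih => rw [pow_succ]; exact ih.mul hf

theorem prod_prime {α : Type} (s : Finset α) (f : α → ArithmeticFunction ℚ)
    (hf : ∀ a, (f a).IsMultiplicative) (p : ℕ) (hp : p.Prime) :
    (∏ a ∈ s, f a) p = ∑ a ∈ s, f a p := by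
  classical
  induction s using Finset.induction_on with
  | empty => simp [ArithmeticFunction.one_apply_ne hp.ne_one]
  | insert a s ha ih =>
    rw [prod_insert ha, sum_insert ha,
      ID11.mul_prime _ _ (hf a).map_one (mult_prod s f hf).map_one p hp, ih]

/-- the family of monomials -/
noncomputable def mon (k d : ℕ) (e : Fin (k + 1) → Fin (d + 1)) : ArithmeticFunction ℚ :=
  ∏ j : Fin (k + 1), sh (j : ℕ) tau ^ (e j : ℕ)

theorem sep (h14 : D14) (h10b : D10b) (k d : ℕ) (e e' : Fin (k + 1) → Fin (d + 1)) (hne : e ≠ e') :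
    ∃ X : ℕ, ∀ q : ℕ, q.Prime → X < q → mon k d e q ≠ mon k d e' q := by
  classical
  set p : Polynomial ℚ := ∑ j : Fin (k + 1), Polynomial.C (((e j : ℕ) : ℚ) - ((e' j : ℕ) : ℚ)) *
    Polynomial.X ^ (j : ℕ) with hp
  have hcoef : ∀ j : Fin (k + 1), p.coeff (j : ℕ) = ((e j : ℕ) : ℚ) - ((e' j : ℕ) : ℚ) := by
    intro j
    rw [hp, Polynomial.finsetSum_coeff]
    rw [Finset.sum_eq_single j]
    · rw [Polynomial.coeff_C_mul, Polynomial.coeff_X_pow, if_pos rfl, mul_one]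
    · intro i _ hij
      rw [Polynomial.coeff_C_mul, Polynomial.coeff_X_pow, if_neg, mul_zero]
      intro h
      exact hij (Fin.ext h.symm)
    · intro h; exact absurd (mem_univ _) h
  have hp0 : p ≠ 0 := by
    intro h0
    apply hne
    funext j
    have := hcoef j
    rw [h0, Polynomial.coeff_zero] at this
    have h1 : ((e j : ℕ) : ℚ) = ((e' j : ℕ) : ℚ) := by linarith
    exact Fin.ext (by exact_mod_cast h1)
  have hval : ∀ (e : Fin (k + 1) → Fin (d + 1)) (q : ℕ), q.Prime →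
      mon k d e q = ∑ j : Fin (k + 1), ((e j : ℕ) : ℚ) * (-2 / (q : ℚ) ^ (j : ℕ)) := by
    intro e q hq
    have hm : ∀ j : Fin (k + 1), (sh j tau).IsMultiplicative := fun j => h14.2.2 j tau h10b.1
    rw [mon, prod_prime _ _ (fun j => mult_pow _ (hm j) _) q hq]
    refine Finset.sum_congr rfl fun j _ => ?_
    refine ID11.pow_prime (sh j tau) (hm j) _ q hq ?_ _
    change tau q / (q : ℚ) ^ (j : ℕ) = _
    rw [h10b.2 q hq]
  have hfin : {q : ℕ | (((q : ℚ))⁻¹) ∈ (p.roots.toFinset : Set ℚ)}.Finite := by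
    refine Set.Finite.preimage (f := fun q : ℕ => ((q : ℚ))⁻¹) ?_ (Finset.finite_toSet _)
    intro a _ b _ hab
    have : (a : ℚ) = b := inv_injective hab
    exact_mod_cast this
  obtain ⟨X, hX⟩ := hfin.bddAbove
  refine ⟨X, fun q hq hXq heq => ?_⟩
  have h1 : q ∈ {q : ℕ | (((q : ℚ))⁻¹) ∈ (p.roots.toFinset : Set ℚ)} := by
    change ((q : ℚ))⁻¹ ∈ (p.roots.toFinset : Set ℚ)
    rw [Finset.mem_coe, Multiset.mem_toFinset, Polynomial.mem_roots hp0, Polynomial.IsRoot.def, hp,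
      Polynomial.eval_finsetSum]
    rw [hval e q hq, hval e' q hq] at heq
    have h2 : ∑ j : Fin (k + 1), ((((e j : ℕ) : ℚ)) * (-2 / (q : ℚ) ^ (j : ℕ)) -
        ((e' j : ℕ) : ℚ) * (-2 / (q : ℚ) ^ (j : ℕ))) = 0 := by
      rw [Finset.sum_sub_distrib, heq, sub_self]
    have h3 : ∑ j : Fin (k + 1), Polynomial.eval ((q : ℚ))⁻¹
        (Polynomial.C (((e j : ℕ) : ℚ) - ((e' j : ℕ) : ℚ)) * Polynomial.X ^ (j : ℕ)) =
        (-1 / 2) * ∑ j : Fin (k + 1), ((((e j : ℕ) : ℚ)) * (-2 / (q : ℚ) ^ (j : ℕ)) -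
        ((e' j : ℕ) : ℚ) * (-2 / (q : ℚ) ^ (j : ℕ))) := by
      rw [Finset.mul_sum]
      refine Finset.sum_congr rfl fun j _ => ?_
      rw [Polynomial.eval_mul, Polynomial.eval_C, Polynomial.eval_pow, Polynomial.eval_X, inv_pow]
      ring
    rw [h3, h2, mul_zero]
  exact absurd (hX h1) (not_le.mpr hXq)

/-- exponents as a finitely supported function -/
noncomputable def ex (k d : ℕ) (e : Fin (k + 1) → Fin (d + 1)) : Fin (k + 1) →₀ ℕ :=
  Finsupp.equivFunOnFinite.symm fun j => (e j : ℕ)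

theorem ex_inj (k d : ℕ) : Function.Injective (ex k d) := by
  intro e e' h
  funext j
  have := DFunLike.congr_fun h j
  exact Fin.ext (by simpa [ex] using this)

theorem mem_range (k d : ℕ) (P : MvPolynomial (Fin (k + 1)) ℤ) (hd : ∀ j, P.degreeOf j ≤ d)
    (s : Fin (k + 1) →₀ ℕ) (hs : s ∈ P.support) : ∃ e, ex k d e = s := by
  refine ⟨fun j => ⟨s j, Nat.lt_succ_of_le ?_⟩, ?_⟩
  · exact (MvPolynomial.monomial_le_degreeOf j hs).trans (hd j)
  · ext j
    simp [ex]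

theorem eval_eq (k d : ℕ) (P : MvPolynomial (Fin (k + 1)) ℤ) (hd : ∀ j, P.degreeOf j ≤ d)
    (x : Fin (k + 1) → ℂ) : MvPolynomial.aeval x P =
      ∑ e : Fin (k + 1) → Fin (d + 1), ((P.coeff (ex k d e) : ℤ) : ℂ) * ∏ j, x j ^ (e j : ℕ) := by
  classical
  rw [MvPolynomial.aeval_def, MvPolynomial.eval₂_eq']
  have hsub : P.support ⊆ univ.image (ex k d) := by
    intro s hs
    obtain ⟨e, he⟩ := mem_range k d P hd s hs
    exact mem_image.mpr ⟨e, mem_univ _, he⟩
  rw [Finset.sum_subset hsub]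
  · rw [Finset.sum_image fun a _ b _ h => ex_inj k d h]
    refine Finset.sum_congr rfl fun e _ => ?_
    simp [ex]
  · intro s _ hs
    rw [MvPolynomial.notMem_support_iff.mp hs]
    simp

end ID15

open ID12 ID15 in
theorem prfD15 (h1 : D1) (h2 : D2) (h9 : D9) (h10 : D10a) (h10b : D10b) (h13 : D13)
    (h14 : D14) : D15 := by
  classical
  intro k d B
  have hB : (1 : ℝ) ≤ max |B| 1 := le_max_right _ _
  have hPG : ∀ e, PG (mon k d e) := fun e =>
    PG_prod h1 _ _ fun j _ => PG_pow h1 _ (h14.1 j tau h10.1) _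
  have hmul : ∀ e, (mon k d e).IsMultiplicative := fun e =>
    mult_prod _ _ fun j => mult_pow _ (h14.2.2 j tau h10b.1) _
  obtain ⟨θ₀, M₀, hθ₀, H⟩ := h9 (Fin (k + 1) → Fin (d + 1)) (mon k d) hPG
    (h13 _ _ hmul fun e e' hne => sep h14 h10b k d e e' hne) (max |B| 1) hB
  -- values of the monomials
  have hval : ∀ e : Fin (k + 1) → Fin (d + 1), ∃ M : ℕ, ∀ m ≥ M,
      val (mon k d e) m = ∏ j : Fin (k + 1), val tau (m + j) ^ (e j : ℕ) := by
    intro e
    obtain ⟨M, hM⟩ := val_prod h1 h2 univ (fun j : Fin (k + 1) => sh j tau ^ (e j : ℕ))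
      fun j => PG_pow h1 _ (h14.1 j tau h10.1) _
    choose M' hM' using fun j : Fin (k + 1) =>
      val_pow h1 h2 (sh j tau) (h14.1 j tau h10.1) (e j : ℕ)
    refine ⟨M + ∑ j, M' j, fun m hm => ?_⟩
    rw [mon, hM m ((Nat.le_add_right _ _).trans hm)]
    refine Finset.prod_congr rfl fun j _ => ?_
    have hj : M' j ≤ m := (Finset.single_le_sum (fun j _ => Nat.zero_le (M' j)) (mem_univ j)).trans
      ((Nat.le_add_left _ _).trans hm)
    rw [hM' j m hj, h14.2.1]
  choose M₁ hM₁ using hval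
  obtain ⟨M₂, hM₂⟩ := h10.2
  refine ⟨min θ₀ (1 / 2), lt_min hθ₀ (by norm_num), lt_of_le_of_lt (min_le_right _ _) (by norm_num),
    M₀ + (∑ e, M₁ e + M₂), fun m hm P hP hd hc => ?_⟩
  have hm0 : M₀ ≤ m := (Nat.le_add_right _ _).trans hm
  have hm1 : ∀ e, M₁ e ≤ m := fun e =>
    (Finset.single_le_sum (fun e _ => Nat.zero_le (M₁ e)) (mem_univ e)).trans
      ((Nat.le_add_right _ _).trans ((Nat.le_add_left _ _).trans hm))
  have hm2 : M₂ ≤ m := (Nat.le_add_left _ _).trans ((Nat.le_add_left _ _).trans hm)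
  have ha : (fun e => P.coeff (ex k d e)) ≠ 0 := by
    intro h
    apply hP
    obtain ⟨s, hs⟩ : P.support.Nonempty := by
      rw [Finset.nonempty_iff_ne_empty]
      intro h0
      exact hP (MvPolynomial.support_eq_empty.mp h0)
    obtain ⟨e, he⟩ := mem_range k d P hd s hs
    have := congrFun h e
    simp only [he, Pi.zero_apply] at this
    exact absurd this (MvPolynomial.mem_support_iff.mp hs)
  have hb : ∀ e, |((P.coeff (ex k d e) : ℤ) : ℝ)| ≤ (max |B| 1) ^ m := by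
    intro e
    refine le_trans (hc _) (le_trans (le_abs_self _) ?_)
    rw [abs_pow]
    exact pow_le_pow_left₀ (abs_nonneg _) (le_max_left _ _) m
  have key := H m hm0 _ ha hb
  have hle : (min θ₀ (1 / 2)) ^ m ≤ θ₀ ^ m :=
    pow_le_pow_left₀ (le_of_lt (lt_min hθ₀ (by norm_num))) (min_le_left _ _) m
  refine le_trans hle (le_trans key (le_of_eq ?_))
  have hs : MvPolynomial.aeval (fun j : Fin (k + 1) => tt (m + j)) P =
      ((∑ e, ((P.coeff (ex k d e) : ℤ) : ℝ) * val (mon k d e) m : ℝ) : ℂ) := by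
    rw [eval_eq k d P hd]
    push_cast
    refine Finset.sum_congr rfl fun e _ => ?_
    rw [hM₁ e m (hm1 e)]
    push_cast
    congr 1
    refine Finset.prod_congr rfl fun j _ => ?_
    rw [hM₂ (m + j) (hm2.trans (Nat.le_add_right _ _)), tt]
  rw [hs, Complex.norm_real, Real.norm_eq_abs]

end Pool.Agent.Work.MP_f1a024_nt.AH

end
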