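import Mathlib
import Pool.Agent.Work.MP_f1a024_nt.H84Ser

/-! Bundle of small proof modules (one section per former module). -/

section

/-!
Generalised Vandermonde matrices with positive nodes and natural exponents, and an abstract
rarity theorem for rational numbers close to sums of exponentials.
-/

namespace MPf1a024

open Polynomial Finset

lemma signVariations_lt_card (P : ℝ[X]) (hP : P ≠ 0) : P.signVariations < P.support.card := by
  induction hn : P.support.card using Nat.strong_induction_on generalizing P with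
  | _ n ih =>
    have hpos : 0 < P.support.card := Finset.card_pos.mpr (by simpa using hP)
    by_cases he : P.eraseLead = 0
    · have h1 : P.signVariations ≤ P.eraseLead.signVariations + 1 :=
        Polynomial.signVariations_le_eraseLead_succ P
      have h2 : P = monomial P.natDegree P.leadingCoeff := by
        have := Polynomial.eraseLead_add_monomial_natDegree_leadingCoeff P
        rw [he, zero_add] at this
        exact this.symm
      have h3 : P.signVariations = 0 := by
        rw [h2]; exact Polynomial.signVariations_monomial _ _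
      omega
    · have h1 : P.signVariations ≤ P.eraseLead.signVariations + 1 :=
        Polynomial.signVariations_le_eraseLead_succ P
      have h2 : P.eraseLead.support.card + 1 = P.support.card :=
        Polynomial.card_support_eraseLead_add_one hP
      have h3 := ih P.eraseLead.support.card (by omega) P.eraseLead he rfl
      omega

/-- A generalised Vandermonde determinant with distinct positive nodes and distinct exponents
does not vanish. -/
lemma det_ne_zero {d : ℕ} (x : Fin d → ℝ) (hx : ∀ j, 0 < x j) (hinj : Function.Injective x)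
    (h : Fin d → ℕ) (hh : Function.Injective h) :
    (Matrix.of fun j i => x j ^ h i).det ≠ 0 := by
  intro hdet
  obtain ⟨v, hv, hMv⟩ := Matrix.exists_mulVec_eq_zero_iff.mpr hdet
  set P : ℝ[X] := ∑ i, monomial (h i) (v i) with hP
  have hcoeff : ∀ i, P.coeff (h i) = v i := by
    intro i
    rw [hP, Polynomial.finsetSum_coeff, Finset.sum_eq_single i]
    · simp
    · intro k _ hk
      rw [Polynomial.coeff_monomial, if_neg]
      exact fun e => hk (hh e)
    · simp
  have hP0 : P ≠ 0 := by
    intro h0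
    apply hv
    funext i
    have := hcoeff i
    rw [h0, Polynomial.coeff_zero] at this
    exact this.symm
  have hroot : ∀ j, P.eval (x j) = 0 := by
    intro j
    have := congrFun hMv j
    simp only [Matrix.mulVec, dotProduct, Matrix.of_apply, Pi.zero_apply] at this
    rw [hP, Polynomial.eval_finsetSum, ← this]
    refine Finset.sum_congr rfl fun i _ => ?_
    rw [Polynomial.eval_monomial]; ring
  have hsupp : P.support.card ≤ d := by
    have : P.support ⊆ Finset.univ.image h := by
      intro n hn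
      rw [Polynomial.mem_support_iff] at hn
      by_contra hcon
      apply hn
      rw [hP, Polynomial.finsetSum_coeff]
      refine Finset.sum_eq_zero fun i _ => ?_
      rw [Polynomial.coeff_monomial, if_neg]
      intro e
      exact hcon (by rw [← e]; exact Finset.mem_image_of_mem _ (Finset.mem_univ _))
    calc P.support.card ≤ (Finset.univ.image h).card := Finset.card_le_card this
      _ ≤ (Finset.univ : Finset (Fin d)).card := Finset.card_image_le
      _ = d := by simp
  have hcount : d ≤ P.roots.countP (0 < ·) := by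
    have h1 : (Finset.univ.image x).val ≤ P.roots.filter (0 < ·) := by
      rw [Multiset.le_iff_subset (Finset.nodup _)]
      intro y hy
      rw [Finset.mem_val, Finset.mem_image] at hy
      obtain ⟨j, -, rfl⟩ := hy
      rw [Multiset.mem_filter]
      exact ⟨(Polynomial.mem_roots hP0).mpr (hroot j), hx j⟩
    have h2 := Multiset.card_le_card h1
    rw [← Multiset.countP_eq_card_filter] at h2
    have h3 : (Finset.univ.image x).val.card = d := by
      change (Finset.univ.image x).card = d
      rw [Finset.card_image_of_injective _ hinj]; simp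
    omega
  have h4 := Polynomial.roots_countP_pos_le_signVariations (P := P)
  have h5 := signVariations_lt_card P hP0
  omega

lemma abs_det_le {d : ℕ} (M : Matrix (Fin d) (Fin d) ℝ) (x : ℝ) (hx : ∀ i j, |M i j| ≤ x) :
    |M.det| ≤ d.factorial * x ^ d := by
  have := Matrix.det_le (A := M) (abv := AbsoluteValue.abs) (x := x) hx
  simpa [nsmul_eq_mul] using this

/-- the integral form of the Vandermonde type matrix -/
lemma one_le_det {d : ℕ} (num den : Fin d → ℕ) (hden : ∀ j, 0 < den j) (hnum : ∀ j, 0 < num j)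
    (hinj : Function.Injective fun j => (num j : ℝ) / den j)
    (h : Fin d → ℕ) (hh : Function.Injective h) (H : ℕ) (hH : ∀ i, h i ≤ H) :
    1 ≤ (∏ j, (den j : ℝ)) ^ H *
      |(Matrix.of fun j i => ((num j : ℝ) / den j) ^ h i).det| := by
  set M : Matrix (Fin d) (Fin d) ℝ := Matrix.of fun j i => ((num j : ℝ) / den j) ^ h i with hM
  set Z : Matrix (Fin d) (Fin d) ℤ :=
    Matrix.of fun j i => (num j : ℤ) ^ h i * (den j : ℤ) ^ (H - h i) with hZ
  have hZM : Z.map (Int.castRingHom ℝ) = Matrix.diagonal (fun j => (den j : ℝ) ^ H) * M := by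
    ext j i
    rw [Matrix.map_apply, Matrix.diagonal_mul, hZ, hM, Matrix.of_apply, Matrix.of_apply]
    have hd : (den j : ℝ) ≠ 0 := by exact_mod_cast (hden j).ne'
    rw [div_pow]
    have : (den j : ℝ) ^ H = (den j : ℝ) ^ h i * (den j : ℝ) ^ (H - h i) := by
      rw [← pow_add, Nat.add_sub_cancel' (hH i)]
    rw [this]
    simp only [eq_intCast, Int.cast_mul, Int.cast_pow, Int.cast_natCast]
    field_simp
  have hdet : ((Z.det : ℤ) : ℝ) = (∏ j, (den j : ℝ)) ^ H * M.det := by
    have h1 := RingHom.map_det (Int.castRingHom ℝ) Z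
    rw [RingHom.mapMatrix_apply, hZM, Matrix.det_mul, Matrix.det_diagonal, Finset.prod_pow] at h1
    simpa using h1
  have hne : M.det ≠ 0 := by
    apply det_ne_zero _ _ hinj h hh
    intro j
    have h1 : (0 : ℝ) < num j := by exact_mod_cast hnum j
    have h2 : (0 : ℝ) < den j := by exact_mod_cast hden j
    positivity
  have hP : (0 : ℝ) < (∏ j, (den j : ℝ)) ^ H := by
    apply pow_pos
    exact Finset.prod_pos fun j _ => by exact_mod_cast hden j
  have hZne : Z.det ≠ 0 := by
    intro h0
    rw [h0, Int.cast_zero] at hdet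
    exact mul_ne_zero hP.ne' hne hdet.symm
  have : (1 : ℝ) ≤ |((Z.det : ℤ) : ℝ)| := by
    have : (1 : ℤ) ≤ |Z.det| := Int.one_le_abs hZne
    exact_mod_cast this
  rwa [hdet, abs_mul, abs_of_pos hP] at this


/-- the replaced row, decomposed -/
lemma det_updateRow_decomp {d : ℕ} (x : Fin d → ℝ) (r : Fin d) (coef : Fin d → ℝ)
    (m : Fin d → ℕ) (m₀ : ℕ) (hm : ∀ i, m₀ ≤ m i) (Y R : Fin d → ℝ)
    (hY : ∀ i, Y i = ∑ j, coef j * x j ^ m i + R i) :
    ((Matrix.of fun j i => x j ^ (m i - m₀)).updateRow r Y).det =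
      coef r * x r ^ m₀ * (Matrix.of fun j i => x j ^ (m i - m₀)).det +
      ((Matrix.of fun j i => x j ^ (m i - m₀)).updateRow r R).det := by
  set M : Matrix (Fin d) (Fin d) ℝ := Matrix.of fun j i => x j ^ (m i - m₀) with hM
  have h1 : Y = (∑ j, (coef j * x j ^ m₀) • M j) + R := by
    funext i
    rw [hY i, Pi.add_apply, Finset.sum_apply]
    congr 1
    refine Finset.sum_congr rfl fun j _ => ?_
    rw [Pi.smul_apply, smul_eq_mul, hM, Matrix.of_apply, mul_assoc, ← pow_add,
      Nat.add_sub_cancel' (hm i)]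
  rw [h1, Matrix.det_updateRow_add, Matrix.det_updateRow_sum, smul_eq_mul]

/-- integrality of the determinant with the replaced row -/
lemma one_le_det_updateRow {d : ℕ} (num den : Fin d → ℕ) (hden : ∀ j, 0 < den j) (r : Fin d)
    (h : Fin d → ℕ) (H : ℕ) (hH : ∀ i, h i ≤ H) (Y : Fin d → ℝ) (c z : Fin d → ℤ)
    (hc : ∀ i, 0 < c i) (hz : ∀ i, (c i : ℝ) * Y i = z i)
    (hne : ((Matrix.of fun j i => ((num j : ℝ) / den j) ^ h i).updateRow r Y).det ≠ 0) :
    1 ≤ (∏ j, (den j : ℝ)) ^ H *
      |((Matrix.of fun j i => ((num j : ℝ) / den j) ^ h i).updateRow r Y).det| *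
      ∏ i, (c i : ℝ) := by
  set M : Matrix (Fin d) (Fin d) ℝ := Matrix.of fun j i => ((num j : ℝ) / den j) ^ h i with hM
  set u : Fin d → ℕ := fun j => if j = r then 1 else den j ^ H with hu
  set Z : Matrix (Fin d) (Fin d) ℤ :=
    Matrix.of fun j i => if j = r then z i else
      c i * ((num j : ℤ) ^ h i * (den j : ℤ) ^ (H - h i)) with hZ
  have hZM : Z.map (Int.castRingHom ℝ) =
      Matrix.diagonal (fun j => (u j : ℝ)) * (M.updateRow r Y) *
        Matrix.diagonal (fun i => (c i : ℝ)) := by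
    ext j i
    rw [Matrix.map_apply, Matrix.mul_diagonal, Matrix.diagonal_mul, hZ, Matrix.of_apply]
    by_cases hj : j = r
    · subst hj
      rw [if_pos rfl, Matrix.updateRow_self, hu]
      simp only [if_true, Nat.cast_one, one_mul, eq_intCast]
      rw [← hz i]; ring
    · rw [if_neg hj, Matrix.updateRow_ne hj, hu, hM, Matrix.of_apply]
      simp only [if_neg hj]
      have hd : (den j : ℝ) ≠ 0 := by exact_mod_cast (hden j).ne'
      rw [div_pow]
      have : (den j : ℝ) ^ H = (den j : ℝ) ^ h i * (den j : ℝ) ^ (H - h i) := by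
        rw [← pow_add, Nat.add_sub_cancel' (hH i)]
      rw [Nat.cast_pow, this]
      simp only [eq_intCast, Int.cast_mul, Int.cast_pow, Int.cast_natCast]
      field_simp
  have hdet : ((Z.det : ℤ) : ℝ) =
      (∏ j, (u j : ℝ)) * (M.updateRow r Y).det * ∏ i, (c i : ℝ) := by
    have h1 := RingHom.map_det (Int.castRingHom ℝ) Z
    rw [RingHom.mapMatrix_apply, hZM, Matrix.det_mul, Matrix.det_mul, Matrix.det_diagonal,
      Matrix.det_diagonal] at h1
    simpa using h1
  have hupos : ∀ j, (0 : ℝ) < u j := by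
    intro j
    rw [hu]
    by_cases hj : j = r
    · simp [hj]
    · simp only [if_neg hj, Nat.cast_pow]
      exact pow_pos (by exact_mod_cast hden j) _
  have hPu : (0 : ℝ) < ∏ j, (u j : ℝ) := Finset.prod_pos fun j _ => hupos j
  have hPc : (0 : ℝ) < ∏ i, (c i : ℝ) := Finset.prod_pos fun i _ => by exact_mod_cast hc i
  have hZne : Z.det ≠ 0 := by
    intro h0
    rw [h0, Int.cast_zero] at hdet
    exact mul_ne_zero (mul_ne_zero hPu.ne' hne) hPc.ne' hdet.symm
  have h2 : (1 : ℝ) ≤ |((Z.det : ℤ) : ℝ)| := by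
    have : (1 : ℤ) ≤ |Z.det| := Int.one_le_abs hZne
    exact_mod_cast this
  rw [hdet, abs_mul, abs_mul, abs_of_pos hPu, abs_of_pos hPc] at h2
  refine h2.trans ?_
  gcongr
  rw [← Finset.prod_pow]
  apply Finset.prod_le_prod (fun j _ => (hupos j).le)
  intro j _
  rw [hu]
  by_cases hj : j = r
  · simp only [if_pos hj, Nat.cast_one]
    exact one_le_pow₀ (by exact_mod_cast hden j)
  · simp [if_neg hj]

end MPf1a024

end

section

/-!
Linear algebra for the interpolation determinant: integrality, choice of rows, generalised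
Vandermonde systems with nodes `1/(j+1)`.
-/

namespace MPf1a024.H84

open Finset Matrix

/-- Determinant bound: the entries of `A` are integers divided by `w j ^ m i`, and `A * T` has
small columns. -/
theorem det_bound {ι : Type*} [Fintype ι] [DecidableEq ι] (A : Matrix ι ι ℝ) (w : ι → ℕ)
    (m : ι → ℕ) (H : ℕ) (hH : ∀ i, m i ≤ H) (hw : ∀ j, 0 < w j) (z : ι → ι → ℤ)
    (hA : ∀ i j, A i j = z i j / (w j : ℝ) ^ m i) (hdet : A.det ≠ 0)
    (T : Matrix ι ι ℤ) (hT : T.det ≠ 0) (c : ι → ℝ) (hc : ∀ j, 0 < c j)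
    (hb : ∀ i j, |(A * T.map (Int.castRingHom ℝ)) i j| ≤ c j) :
    1 ≤ (∏ j, (w j : ℝ)) ^ H * ((Fintype.card ι).factorial * ∏ j, c j) := by
  -- integrality
  set Z : Matrix ι ι ℤ := Matrix.of fun i j => z i j * (w j : ℤ) ^ (H - m i) with hZ
  have hZA : Z.map (Int.castRingHom ℝ) = A * Matrix.diagonal (fun j => (w j : ℝ) ^ H) := by
    ext i j
    rw [Matrix.map_apply, Matrix.mul_diagonal, hA, hZ, Matrix.of_apply]
    have hd : (w j : ℝ) ≠ 0 := by exact_mod_cast (hw j).ne'
    have : (w j : ℝ) ^ H = (w j : ℝ) ^ (m i) * (w j : ℝ) ^ (H - m i) := by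
      rw [← pow_add, Nat.add_sub_cancel' (hH i)]
    rw [this]
    simp only [eq_intCast, Int.cast_mul, Int.cast_pow, Int.cast_natCast]
    field_simp
  have hZdet : ((Z.det : ℤ) : ℝ) = A.det * (∏ j, (w j : ℝ)) ^ H := by
    have h1 := RingHom.map_det (Int.castRingHom ℝ) Z
    rw [RingHom.mapMatrix_apply, hZA, Matrix.det_mul, Matrix.det_diagonal, Finset.prod_pow] at h1
    simpa using h1
  have hP : (0 : ℝ) < (∏ j, (w j : ℝ)) ^ H := by
    apply pow_pos
    exact Finset.prod_pos fun j _ => by exact_mod_cast hw j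
  have hZne : Z.det ≠ 0 := by
    intro h0
    rw [h0, Int.cast_zero] at hZdet
    exact mul_ne_zero hdet hP.ne' hZdet.symm
  have h1 : (1 : ℝ) ≤ |A.det| * (∏ j, (w j : ℝ)) ^ H := by
    have h2 : (1 : ℤ) ≤ |Z.det| := Int.one_le_abs hZne
    have h3 : (1 : ℝ) ≤ |((Z.det : ℤ) : ℝ)| := by exact_mod_cast h2
    rwa [hZdet, abs_mul, abs_of_pos hP] at h3
  -- change of columns
  set A' : Matrix ι ι ℝ := A * T.map (Int.castRingHom ℝ) with hA'
  have hdetA' : A'.det = A.det * ((T.det : ℤ) : ℝ) := by
    rw [hA', Matrix.det_mul, ← RingHom.mapMatrix_apply, ← RingHom.map_det]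
    simp
  have hT1 : (1 : ℝ) ≤ |((T.det : ℤ) : ℝ)| := by
    have h2 : (1 : ℤ) ≤ |T.det| := Int.one_le_abs hT
    exact_mod_cast h2
  have h4 : |A.det| ≤ |A'.det| := by
    rw [hdetA', abs_mul]
    exact le_mul_of_one_le_right (abs_nonneg _) hT1
  -- upper bound
  have h5 : |A'.det| ≤ (Fintype.card ι).factorial * ∏ j, c j := by
    set B : Matrix ι ι ℝ := Matrix.of fun i j => A' i j / c j with hB
    have hAB : A' = B * Matrix.diagonal c := by
      ext i j
      rw [Matrix.mul_diagonal, hB, Matrix.of_apply, div_mul_cancel₀ _ (hc j).ne']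
    have hBle : ∀ i j, |B i j| ≤ 1 := by
      intro i j
      rw [hB, Matrix.of_apply, abs_div, abs_of_pos (hc j), div_le_one (hc j)]
      exact hb i j
    have h6 := Matrix.det_le (A := B) (abv := AbsoluteValue.abs) (x := 1) hBle
    have h7 : |B.det| ≤ (Fintype.card ι).factorial := by
      simpa [nsmul_eq_mul] using h6
    have hcp : 0 < ∏ j, c j := Finset.prod_pos fun j _ => hc j
    rw [hAB, Matrix.det_mul, Matrix.det_diagonal, abs_mul, abs_of_pos hcp]
    gcongr
  calc (1 : ℝ) ≤ |A.det| * (∏ j, (w j : ℝ)) ^ H := h1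
    _ ≤ ((Fintype.card ι).factorial * ∏ j, c j) * (∏ j, (w j : ℝ)) ^ H := by
        gcongr
        exact h4.trans h5
    _ = _ := by ring

/-- If no nonzero vector is orthogonal to all rows, some square selection of rows is regular. -/
theorem exists_rows {ι κ : Type*} [Fintype ι] [DecidableEq ι] (r : κ → ι → ℝ)
    (h : ∀ v : ι → ℝ, (∀ k, ∑ j, r k j * v j = 0) → v = 0) :
    ∃ f : ι → κ, (Matrix.of fun i j => r (f i) j).det ≠ 0 := by
  classical
  have hspan : Submodule.span ℝ (Set.range r) = ⊤ := by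
    by_contra hne
    obtain ⟨φ, hφ, hφ0⟩ := Submodule.exists_le_ker_of_lt_top _ (lt_top_iff_ne_top.mpr hne)
    set v : ι → ℝ := fun j => φ (Pi.single j 1) with hv
    have hφv : ∀ x : ι → ℝ, φ x = ∑ j, x j * v j := by
      intro x
      conv_lhs => rw [← Finset.univ_sum_single x, map_sum]
      refine Finset.sum_congr rfl fun j _ => ?_
      rw [hv]
      have : (Pi.single j (x j) : ι → ℝ) = x j • (Pi.single j (1 : ℝ) : ι → ℝ) := by
        rw [← Pi.single_smul]; simp
      rw [this, map_smul, smul_eq_mul]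
    have hv0 : v = 0 := by
      apply h
      intro k
      rw [← hφv]
      have : r k ∈ Submodule.span ℝ (Set.range r) := Submodule.subset_span ⟨k, rfl⟩
      exact hφ0 this
    apply hφ
    refine LinearMap.ext fun x => ?_
    rw [hφv]
    simp [hv0]
  obtain ⟨b, hb1, hb2, hb3⟩ := exists_linearIndependent ℝ (Set.range r)
  rw [hspan] at hb2
  have bas : Module.Basis b ℝ (ι → ℝ) := Module.Basis.mk hb3 (by
    rw [Subtype.range_coe_subtype, Set.ofPred_mem_eq, hb2])
  have hfin' : Finite b := Module.Finite.finite_basis bas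
  have hfin : Fintype b := Fintype.ofFinite b
  have hcard : Fintype.card b = Fintype.card ι := by
    have h1 := Module.finrank_eq_card_basis bas
    have h2 : Module.finrank ℝ (ι → ℝ) = Fintype.card ι := Module.finrank_fintype_fun_eq_card ℝ
    rw [← h1, h2]
  have e : ι ≃ b := (Fintype.equivOfCardEq hcard).symm
  have hpre : ∀ i : ι, ∃ k, r k = (e i : ι → ℝ) := fun i => hb1 (e i).2
  choose f hf using hpre
  refine ⟨f, ?_⟩
  have hli : LinearIndependent ℝ (fun i => r (f i)) := by
    have : (fun i => r (f i)) = (fun x : b => (x : ι → ℝ)) ∘ e := by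
      funext i
      exact hf i
    rw [this]
    exact hb3.comp _ e.injective
  have hunit := (Matrix.linearIndependent_rows_iff_isUnit
    (A := (Matrix.of fun i j => r (f i) j))).mp hli
  rw [Matrix.isUnit_iff_isUnit_det] at hunit
  exact hunit.ne_zero

/-- generalised Vandermonde systems with nodes `1/(j+1)` -/
theorem solve_bound {J : ℕ} (m : Fin J → ℕ) (hinj : Function.Injective m) (n H : ℕ)
    (hn : ∀ i, n ≤ m i) (hH : ∀ i, m i ≤ H) (hnH : n ≤ H) (g : Fin J → ℝ) (η : ℝ) (hη : 0 ≤ η)
    (hg : ∀ i, |∑ j, g j * (1 / ((j : ℝ) + 1)) ^ m i| ≤ η) (j : Fin J) :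
    |g j| ≤ J.factorial * η * ((j : ℝ) + 1) ^ n * (J.factorial : ℝ) ^ (H - n) := by
  classical
  set V : Matrix (Fin J) (Fin J) ℝ :=
    Matrix.of fun j i => (((1 : ℕ) : ℝ) / ((j : ℕ) + 1 : ℕ)) ^ m i with hV
  have hlow := one_le_det (d := J) (fun _ => 1) (fun j => (j : ℕ) + 1) (fun j => by positivity)
    (fun _ => by norm_num) (by
      intro a b hab
      simp only [Nat.cast_one] at hab
      have h1 : (((a : ℕ) + 1 : ℕ) : ℝ) = (((b : ℕ) + 1 : ℕ) : ℝ) := by
        have := congrArg (fun t : ℝ => 1 / t) hab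
        simpa using this
      have h2 : (a : ℕ) + 1 = (b : ℕ) + 1 := by exact_mod_cast h1
      exact Fin.ext (by omega)) m hinj H hH
  have hprod : (∏ j : Fin J, (((j : ℕ) + 1 : ℕ) : ℝ)) = J.factorial := by
    rw [Fin.prod_univ_eq_prod_range (fun j => ((j + 1 : ℕ) : ℝ)) J]
    rw [← Finset.prod_range_add_one_eq_factorial]
    push_cast
    rfl
  rw [hprod] at hlow
  have hfac : (0 : ℝ) < J.factorial := by exact_mod_cast Nat.factorial_pos J
  -- Cramer
  set u : Fin J → ℝ := fun i => ∑ j, g j * (1 / ((j : ℝ) + 1)) ^ m i with hu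
  have hVg : V.transpose *ᵥ g = u := by
    funext i
    simp only [Matrix.mulVec, dotProduct, Matrix.transpose_apply, hV, Matrix.of_apply, hu]
    refine Finset.sum_congr rfl fun j _ => ?_
    push_cast
    ring
  have hcr : V.det * g j = (V.updateRow j u).det := by
    have h1 : V.transpose.cramer u = V.transpose.det • g := by
      rw [← hVg, Matrix.cramer_eq_adjugate_mulVec, Matrix.mulVec_mulVec, Matrix.adjugate_mul,
        Matrix.smul_mulVec, Matrix.one_mulVec]
    have h2 := congrFun h1 j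
    rw [Matrix.cramer_transpose_apply, Pi.smul_apply, Matrix.det_transpose, smul_eq_mul] at h2
    exact h2.symm
  -- upper bound for the replaced determinant
  have hup : |(V.updateRow j u).det| ≤
      J.factorial * (η * ∏ i ∈ Finset.univ.erase j, (1 / ((i : ℝ) + 1)) ^ n) := by
    set c : Fin J → ℝ := fun i => if i = j then max η 0 else (1 / ((i : ℝ) + 1)) ^ n with hc
    have hentry : ∀ i k, |(V.updateRow j u) i k| ≤ c i := by
      intro i k
      by_cases hij : i = j
      · subst hij
        rw [Matrix.updateRow_self, hc]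
        simp only [if_true]
        exact (hg k).trans (le_max_left _ _)
      · rw [Matrix.updateRow_ne hij, hc]
        simp only [if_neg hij, hV, Matrix.of_apply]
        have h0 : (0 : ℝ) ≤ 1 / ((i : ℝ) + 1) := by positivity
        push_cast
        rw [abs_of_nonneg (pow_nonneg h0 _)]
        apply pow_le_pow_of_le_one h0 _ (hn k)
        rw [div_le_one (by positivity)]
        have : (0 : ℝ) ≤ (i : ℝ) := by positivity
        linarith
    have hdetle : |(V.updateRow j u).det| ≤ J.factorial * ∏ i, c i := by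
      rw [Matrix.det_apply]
      calc |∑ σ : Equiv.Perm (Fin J), (Equiv.Perm.sign σ : ℤ) • ∏ i, (V.updateRow j u) (σ i) i|
          ≤ ∑ σ : Equiv.Perm (Fin J),
            |(Equiv.Perm.sign σ : ℤ) • ∏ i, (V.updateRow j u) (σ i) i| :=
            Finset.abs_sum_le_sum_abs _ _
        _ ≤ ∑ σ : Equiv.Perm (Fin J), ∏ i, c i := by
            apply Finset.sum_le_sum
            intro σ _
            have : |(Equiv.Perm.sign σ : ℤ) • ∏ i, (V.updateRow j u) (σ i) i| =
                ∏ i, |(V.updateRow j u) (σ i) i| := by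
              rcases Int.units_eq_one_or (Equiv.Perm.sign σ) with h | h <;>
                simp [h, Finset.abs_prod]
            rw [this]
            calc ∏ i, |(V.updateRow j u) (σ i) i| ≤ ∏ i, c (σ i) := by
                  apply Finset.prod_le_prod (fun i _ => abs_nonneg _)
                  intro i _
                  exact hentry _ _
              _ = ∏ i, c i := Equiv.prod_comp σ c
        _ = J.factorial * ∏ i, c i := by
            rw [Finset.sum_const, Finset.card_univ, Fintype.card_perm, Fintype.card_fin,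
              nsmul_eq_mul]
    refine hdetle.trans (le_of_eq ?_)
    congr 1
    rw [← Finset.mul_prod_erase _ _ (Finset.mem_univ j)]
    have h1 : c j = η := by simp [hc, hη]
    rw [h1]
    congr 1
    refine Finset.prod_congr rfl fun i hi => ?_
    rw [hc]
    simp [Finset.ne_of_mem_erase hi]
  have hprod2 : (∏ i ∈ Finset.univ.erase j, (1 / ((i : ℝ) + 1)) ^ n) =
      ((j : ℝ) + 1) ^ n / (J.factorial : ℝ) ^ n := by
    have h1 : (∏ i : Fin J, (1 / ((i : ℝ) + 1)) ^ n) = 1 / (J.factorial : ℝ) ^ n := by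
      rw [Finset.prod_pow, Finset.prod_div_distrib, Finset.prod_const_one]
      have : (∏ i : Fin J, ((i : ℝ) + 1)) = J.factorial := by
        rw [← hprod]; push_cast; rfl
      rw [this, div_pow, one_pow]
    rw [← Finset.mul_prod_erase _ _ (Finset.mem_univ j)] at h1
    have hj : (0 : ℝ) < (j : ℝ) + 1 := by positivity
    rw [div_pow, one_pow] at h1
    field_simp at h1 ⊢
    linarith
  rw [hprod2] at hup
  have hdetpos : 0 < |V.det| := by
    by_contra hcon
    have : |V.det| = 0 := le_antisymm (not_lt.mp hcon) (abs_nonneg _)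
    rw [this] at hlow
    norm_num at hlow
  have hgabs : |V.det| * |g j| ≤
      J.factorial * (η * (((j : ℝ) + 1) ^ n / (J.factorial : ℝ) ^ n)) := by
    rw [← abs_mul, hcr]; exact hup
  have hH' : (J.factorial : ℝ) ^ H = (J.factorial : ℝ) ^ n * (J.factorial : ℝ) ^ (H - n) := by
    rw [← pow_add, Nat.add_sub_cancel' hnH]
  calc |g j| ≤ ((J.factorial : ℝ) ^ H * |V.det|) * |g j| := by
        exact le_mul_of_one_le_left (abs_nonneg _) hlow
    _ = (J.factorial : ℝ) ^ H * (|V.det| * |g j|) := by ring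
    _ ≤ (J.factorial : ℝ) ^ H *
        (J.factorial * (η * (((j : ℝ) + 1) ^ n / (J.factorial : ℝ) ^ n))) := by gcongr
    _ = J.factorial * η * ((j : ℝ) + 1) ^ n * (J.factorial : ℝ) ^ (H - n) := by
        rw [hH']
        field_simp

end MPf1a024.H84

end

section

/-!
The zero estimate: combinations `P_c(m) y + P_d(m)` with `y` close to `T(m)` have few zeros in
short windows.
-/

namespace MPf1a024.H84

open Finset ArithmeticFunction
open scoped ArithmeticFunction.Moebius

lemma abs_T_le {m : ℕ} (hm : 3 ≤ m) : |T (-1) m| ≤ 2 := by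
  have h := tail_le (h := cf (-1)) (C := 1) zero_le_one
    (fun n => by rw [one_mul]; exact abs_cf_le (Or.inr rfl) n) (q := 1) le_rfl
    (fun n hn => by
      have : n = 0 := by omega
      rw [this, cf_zero]) hm (hasSum_T (Or.inr rfl) hm)
  simpa using h

lemma zero_notMem_divisors (R : ℕ) : 0 ∉ R.divisors := by simp

/-- head of the Dirichlet series -/
lemma head_bound {K : Finset ℕ} (hK : 0 ∉ K) (c d : ℕ → ℝ) {X : ℝ} (hX : 0 ≤ X)
    (hc : ∀ k ∈ K, |c k| ≤ X) (hd : ∀ k ∈ K, |d k| ≤ X) (J : ℕ) {m : ℕ} (hm : 3 ≤ m) :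
    |(DP K c m * T (-1) m + DP K d m) -
      ∑ j : Fin J, gco K c d ((j : ℕ) + 1) * (1 / ((j : ℝ) + 1)) ^ m| ≤
      2 * (((K.card : ℝ) + 1) * X) * ((J + 1 : ℕ) : ℝ) ^ 3 / ((J + 1 : ℕ) : ℝ) ^ m := by
  have h1 := hasSum_gco hK c d hm
  have h2 := hasSum_sum_of_ne_finset_zero (L := SummationFilter.unconditional ℕ)
      (f := fun n : ℕ => (if n < J + 1 then gco K c d n / (n : ℝ) ^ m else 0))
      (s := Finset.range (J + 1)) (by
        intro b hb
        rw [Finset.mem_range] at hb
        simp [hb])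
  have h3 := h1.sub h2
  have e1 : (fun n : ℕ => gco K c d n / (n : ℝ) ^ m -
      (if n < J + 1 then gco K c d n / (n : ℝ) ^ m else 0)) =
      fun n : ℕ => (if n < J + 1 then 0 else gco K c d n) / (n : ℝ) ^ m := by
    funext n
    split_ifs <;> simp
  rw [e1] at h3
  have e2 : ∑ b ∈ Finset.range (J + 1),
      (if b < J + 1 then gco K c d b / (b : ℝ) ^ m else 0) =
      ∑ j : Fin J, gco K c d ((j : ℕ) + 1) * (1 / ((j : ℝ) + 1)) ^ m := by
    rw [Finset.sum_range_succ', Fin.sum_univ_eq_sum_range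
      (fun j => gco K c d (j + 1) * (1 / ((j : ℝ) + 1)) ^ m) J]
    simp only [gco_zero hK, zero_div, ite_self, add_zero]
    refine Finset.sum_congr rfl fun j hj => ?_
    rw [Finset.mem_range] at hj
    rw [if_pos (by omega)]
    push_cast
    rw [one_div, inv_pow, div_eq_mul_inv]
  rw [e2] at h3
  refine tail_le (C := ((K.card : ℝ) + 1) * X) (by positivity) ?_ (by omega) ?_ hm h3
  · intro n
    split_ifs
    · simp only [abs_zero]; positivity
    · exact abs_gco_le hK c d hX hc hd n
  · intro n hn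
    rw [if_pos hn]

lemma abs_DP_le {K : Finset ℕ} (hK : 0 ∉ K) (c : ℕ → ℝ) (m : ℕ) :
    |DP K c m| ≤ ∑ k ∈ K, |c k| := by
  rw [DP]
  refine (Finset.abs_sum_le_sum_abs _ _).trans ?_
  apply Finset.sum_le_sum
  intro k hk
  have hk0 : 0 < k := Nat.pos_of_ne_zero (by rintro rfl; exact hK hk)
  have hk1 : (1 : ℝ) ≤ (k : ℝ) ^ m := one_le_pow₀ (by exact_mod_cast hk0)
  rw [abs_div, abs_of_pos (by linarith : (0 : ℝ) < (k : ℝ) ^ m)]
  exact div_le_self (abs_nonneg _) hk1

theorem zero_est {q R : ℕ} (hq : q.Prime) (hR : R ≠ 0) (hqR : ¬ q ∣ R) (θ : ℝ) (hθ0 : 0 < θ)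
    (hθ : θ ≤ 1 / ((q * R + 1 : ℕ) : ℝ)) :
    ∃ E0 : ℕ, 0 < E0 ∧ ∀ E, E0 ≤ E → ∃ N, ∀ n, N ≤ n → ∀ m : Fin (q * R) → ℕ,
      Function.Injective m → (∀ i, n ≤ m i ∧ m i ≤ n + n / E) → ∀ y : Fin (q * R) → ℝ,
      (∀ i, |T (-1) (m i) - y i| ≤ θ ^ m i) → ∀ c d : ℕ → ℝ,
      (∀ i, DP R.divisors c (m i) * y i + DP R.divisors d (m i) = 0) →
      ∀ k ∈ R.divisors, c k = 0 ∧ d k = 0 := by
  obtain ⟨κ, hκ, hinj⟩ := gco_inj hq hR hqR
  set J := q * R with hJ
  have hJ0 : 0 < J := Nat.mul_pos hq.pos (Nat.pos_of_ne_zero hR)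
  have hJR : (0 : ℝ) < J := by exact_mod_cast hJ0
  set K := R.divisors with hK
  have hK0 : 0 ∉ K := zero_notMem_divisors R
  set J1 : ℝ := ((J + 1 : ℕ) : ℝ) with hJ1
  have hJ1e : J1 = J + 1 := by rw [hJ1]; push_cast; ring
  have hJ1pos : 0 < J1 := by rw [hJ1e]; positivity
  -- sigma
  set σ : ℝ := 1 + 1 / (2 * J) with hσ
  have hσ1 : 1 < σ := by rw [hσ]; simp; exact hJ0
  set ρ : ℝ := J / J1 * σ with hρ
  have hρ0 : 0 < ρ := by positivity
  have hρ1 : ρ < 1 := by
    rw [hρ, hσ, hJ1e]
    have : (J : ℝ) / (J + 1) * (1 + 1 / (2 * J)) = (2 * J + 1) / (2 * J + 2) := by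
      field_simp
    rw [this, div_lt_one (by positivity)]
    linarith
  obtain ⟨E0, hE0⟩ := pow_unbounded_of_one_lt (J.factorial : ℝ) hσ1
  refine ⟨E0 + 1, by omega, fun E hE => ?_⟩
  set C2 : ℝ := 1 + 2 * ((K.card : ℝ) + 1) * J1 ^ 3 with hC2
  have hC2pos : 0 < C2 := by positivity
  set C3 : ℝ := 2 * K.card * (κ * (J.factorial * C2)) with hC3
  have hC3nn : 0 ≤ C3 := by positivity
  obtain ⟨N, hN⟩ := exists_pow_lt_of_lt_one (by positivity : (0 : ℝ) < 1 / (C3 + 1)) hρ1
  refine ⟨max N 3, fun n hn m hminj hm y hy c d hzero => ?_⟩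
  have hnN : N ≤ n := (le_max_left _ _).trans hn
  have hn3 : 3 ≤ n := (le_max_right _ _).trans hn
  set X : ℝ := ∑ k ∈ K, (|c k| + |d k|) with hX
  have hXnn : 0 ≤ X := Finset.sum_nonneg fun k _ => by positivity
  have hcX : ∀ k ∈ K, |c k| ≤ X := by
    intro k hk
    calc |c k| ≤ |c k| + |d k| := by linarith [abs_nonneg (d k)]
      _ ≤ X := Finset.single_le_sum (f := fun k => |c k| + |d k|)
          (fun i _ => by positivity) hk
  have hdX : ∀ k ∈ K, |d k| ≤ X := by
    intro k hk
    calc |d k| ≤ |c k| + |d k| := by linarith [abs_nonneg (c k)]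
      _ ≤ X := Finset.single_le_sum (f := fun k => |c k| + |d k|)
          (fun i _ => by positivity) hk
  have hhead : ∀ i, |∑ j : Fin J, gco K c d ((j : ℕ) + 1) * (1 / ((j : ℝ) + 1)) ^ m i| ≤
      C2 * X / J1 ^ n := by
    intro i
    have hmi3 : 3 ≤ m i := hn3.trans (hm i).1
    have h1 := head_bound hK0 c d hXnn hcX hdX J hmi3
    set S := DP K c (m i) * T (-1) (m i) + DP K d (m i) with hS
    have hSval : S = DP K c (m i) * (T (-1) (m i) - y i) := by
      have := hzero i
      rw [hS]
      linarith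
    have hSle : |S| ≤ X * (1 / J1 ^ n) := by
      rw [hSval, abs_mul]
      have h2 : |DP K c (m i)| ≤ X := by
        refine (abs_DP_le hK0 c _).trans ?_
        apply Finset.sum_le_sum
        intro k _
        linarith [abs_nonneg (d k)]
      have h3 : θ ^ m i ≤ 1 / J1 ^ n := by
        calc θ ^ m i ≤ (1 / J1) ^ m i := by gcongr
          _ ≤ (1 / J1) ^ n := by
              apply pow_le_pow_of_le_one (by positivity) _ (hm i).1
              rw [div_le_one hJ1pos, hJ1e]
              linarith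
          _ = 1 / J1 ^ n := by rw [div_pow, one_pow]
      exact mul_le_mul h2 ((hy i).trans h3) (abs_nonneg _) hXnn
    have hpow : 1 / J1 ^ (m i) ≤ 1 / J1 ^ n := by
      apply one_div_le_one_div_of_le (by positivity)
      apply pow_le_pow_right₀ _ (hm i).1
      rw [hJ1e]; linarith
    have h4 : 2 * (((K.card : ℝ) + 1) * X) * J1 ^ 3 / J1 ^ (m i) ≤
        2 * (((K.card : ℝ) + 1) * X) * J1 ^ 3 * (1 / J1 ^ n) := by
      rw [div_eq_mul_one_div]
      gcongr
    set Hd := ∑ j : Fin J, gco K c d ((j : ℕ) + 1) * (1 / ((j : ℝ) + 1)) ^ m i with hHd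
    calc |Hd| = |S - (S - Hd)| := by ring_nf
      _ ≤ |S| + |S - Hd| := abs_sub _ _
      _ ≤ X * (1 / J1 ^ n) + 2 * (((K.card : ℝ) + 1) * X) * J1 ^ 3 * (1 / J1 ^ n) :=
          add_le_add hSle (h1.trans h4)
      _ = C2 * X / J1 ^ n := by rw [hC2]; ring
  have hg : ∀ k, 0 < k → k ≤ J → |gco K c d k| ≤ J.factorial * C2 * X * ρ ^ n := by
    intro k hk0 hkJ
    have h1 := solve_bound (J := J) m hminj n (n + n / E) (fun i => (hm i).1)
      (fun i => (hm i).2) (Nat.le_add_right _ _) (fun j => gco K c d ((j : ℕ) + 1)) (C2 * X / J1 ^ n)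
      (by positivity) hhead ⟨k - 1, by omega⟩
    simp only at h1
    rw [Nat.sub_add_cancel hk0, Nat.add_sub_cancel_left] at h1
    refine h1.trans ?_
    have hk1 : (((k - 1 : ℕ) : ℝ) + 1) = k := by
      rw [Nat.cast_sub hk0]; push_cast; ring
    rw [hk1]
    have h2 : (J.factorial : ℝ) ^ (n / E) ≤ σ ^ n := by
      calc (J.factorial : ℝ) ^ (n / E) ≤ (σ ^ E) ^ (n / E) := by
            apply pow_le_pow_left₀ (by positivity)
            exact hE0.le.trans (pow_le_pow_right₀ hσ1.le (by omega))
        _ = σ ^ (E * (n / E)) := by rw [pow_mul]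
        _ ≤ σ ^ n := pow_le_pow_right₀ hσ1.le (Nat.mul_div_le n E)
    calc (J.factorial : ℝ) * (C2 * X / J1 ^ n) * (k : ℝ) ^ n * (J.factorial : ℝ) ^ (n / E)
        ≤ (J.factorial : ℝ) * (C2 * X / J1 ^ n) * (J : ℝ) ^ n * σ ^ n := by
          gcongr
      _ = J.factorial * C2 * X * ρ ^ n := by
          rw [hρ, mul_pow, div_pow]; ring
  have hfin := hinj c d (J.factorial * C2 * X * ρ ^ n) (by positivity) hg
  have hXle : X ≤ C3 * ρ ^ n * X := by
    calc X ≤ ∑ k ∈ K, (κ * (J.factorial * C2 * X * ρ ^ n) +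
          κ * (J.factorial * C2 * X * ρ ^ n)) := by
          apply Finset.sum_le_sum
          intro k hk
          exact add_le_add (hfin k hk).1 (hfin k hk).2
      _ = C3 * ρ ^ n * X := by
          rw [Finset.sum_const, nsmul_eq_mul, hC3]; ring
  have hρn : C3 * ρ ^ n < 1 := by
    have h1 : ρ ^ n ≤ ρ ^ N := pow_le_pow_of_le_one hρ0.le hρ1.le hnN
    have h2 : ρ ^ n < 1 / (C3 + 1) := lt_of_le_of_lt h1 hN
    rw [lt_div_iff₀ (by positivity)] at h2
    have : 0 < ρ ^ n := by positivity
    nlinarith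
  have hX0 : X = 0 := by
    by_contra hne
    have hpos : 0 < X := lt_of_le_of_ne hXnn (Ne.symm hne)
    nlinarith
  intro k hk
  have h1 := hcX k hk
  have h2 := hdX k hk
  rw [hX0] at h1 h2
  exact ⟨abs_nonpos_iff.mp h1, abs_nonpos_iff.mp h2⟩

end MPf1a024.H84

end
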